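import Pool.Agent.U974.EX.Runs

/-!
Strings of consecutive primes all of whose integral affine combinations with small coefficients are composite almost
primes.
-/

set_option autoImplicit false

namespace Pool.Agent.U974.EX

open Finset Filter

theorem dig_le (L : ℤ) (hL : 1 ≤ L) : ∀ (n : ℕ) (e : Fin n → ℤ), (∀ i, |e i| ≤ L - 1) →
    |∑ i, e i * L ^ (i : ℕ)| ≤ L ^ n - 1 := by
  intro n
  induction n with
  | zero => intro e _; simp
  | succ n ih =>
    intro e he
    rw [Fin.sum_univ_castSucc]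
    have h1 := ih (fun i => e (Fin.castSucc i)) (fun i => he _)
    simp only [Fin.val_castSucc, Fin.val_last]
    have h2 : |e (Fin.last n) * L ^ n| ≤ (L - 1) * L ^ n := by
      rw [abs_mul, abs_of_nonneg (by positivity : (0 : ℤ) ≤ L ^ n)]
      exact mul_le_mul_of_nonneg_right (he _) (by positivity)
    have h3 := abs_add_le (∑ i : Fin n, e (Fin.castSucc i) * L ^ (i : ℕ)) (e (Fin.last n) * L ^ n)
    have h4 : L ^ (n + 1) - 1 = (L ^ n - 1) + (L - 1) * L ^ n := by ring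
    linarith

theorem dig_zero (L : ℤ) (hL : 1 ≤ L) : ∀ (n : ℕ) (e : Fin n → ℤ), (∀ i, |e i| ≤ L - 1) →
    ∑ i, e i * L ^ (i : ℕ) = 0 → ∀ i, e i = 0 := by
  intro n
  induction n with
  | zero => intro e _ _ i; exact i.elim0
  | succ n ih =>
    intro e he h0
    rw [Fin.sum_univ_castSucc] at h0
    simp only [Fin.val_castSucc, Fin.val_last] at h0
    have h1 := dig_le L hL n (fun i => e (Fin.castSucc i)) (fun i => he _)
    have hLn : (0 : ℤ) < L ^ n := by positivity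
    have h2 : e (Fin.last n) = 0 := by
      by_contra hne
      have h3 : L ^ n ≤ |e (Fin.last n) * L ^ n| := by
        rw [abs_mul, abs_of_pos hLn]
        have := Int.one_le_abs hne
        nlinarith
      have h4 : e (Fin.last n) * L ^ n = -∑ i : Fin n, e (Fin.castSucc i) * L ^ (i : ℕ) := by
        linarith
      rw [h4, abs_neg] at h3
      linarith
    rw [h2, zero_mul, add_zero] at h0
    have h3 := ih (fun i => e (Fin.castSucc i)) (fun i => he _) h0
    intro i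
    refine Fin.lastCases h2 (fun i => h3 i) i

/-- `x` is composite with at most `r` prime factors (with multiplicity), all of them at least `w` -/
def Cap (r : ℕ) (w : ℝ) (x : ℕ) : Prop :=
  1 < x ∧ ¬ x.Prime ∧ x.primeFactorsList.length ≤ r ∧ ∀ p : ℕ, p.Prime → p ∣ x → w ≤ p

theorem len_le {N x : ℕ} {δ : ℝ} (hδ : 0 < δ) (hN : 2 ≤ N) (hx0 : x ≠ 0) (hx : x ≤ 2 * N)
    (h : ∀ p : ℕ, p.Prime → p ∣ x → (N : ℝ) ^ δ ≤ p) : x.primeFactorsList.length ≤ ⌈2 / δ⌉₊ := by
  have hNr : (2 : ℝ) ≤ N := by exact_mod_cast hN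
  have hN0 : (0 : ℝ) < N := by linarith
  have h1 : ((N : ℝ) ^ δ) ^ x.primeFactorsList.length ≤ x := by
    have h2 := Nat.prod_primeFactorsList hx0
    have h3 : ∀ l : List ℕ, (∀ p ∈ l, (N : ℝ) ^ δ ≤ p) → ((N : ℝ) ^ δ) ^ l.length ≤ ((l.prod : ℕ) : ℝ) := by
      intro l
      induction l with
      | nil => intro _; simp
      | cons p l ih =>
        intro hl
        rw [List.length_cons, List.prod_cons, pow_succ, Nat.cast_mul]
        have h4 := ih (fun p hp => hl p (List.mem_cons_of_mem _ hp))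
        have h5 := hl p List.mem_cons_self
        rw [mul_comm]
        exact mul_le_mul h5 h4 (by positivity) (Nat.cast_nonneg _)
    have h4 := h3 x.primeFactorsList (fun p hp =>
      h p (Nat.prime_of_mem_primeFactorsList hp) (Nat.dvd_of_mem_primeFactorsList hp))
    rwa [h2] at h4
  have h2 : (x : ℝ) ≤ (N : ℝ) ^ (2 : ℝ) := by
    have h3 : (x : ℝ) ≤ 2 * N := by exact_mod_cast hx
    rw [Real.rpow_two]
    nlinarith
  rw [← Real.rpow_natCast, ← Real.rpow_mul hN0.le] at h1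
  have h3 := h1.trans h2
  have h4 : δ * x.primeFactorsList.length ≤ 2 := by
    by_contra hcon
    push Not at hcon
    exact absurd (Real.rpow_lt_rpow_of_exponent_lt (by linarith : (1 : ℝ) < N) hcon) (not_lt.2 h3)
  have h5 : (x.primeFactorsList.length : ℝ) ≤ 2 / δ := by
    rw [le_div_iff₀ hδ]
    linarith
  exact_mod_cast h5.trans (Nat.le_ceil _)

/-- **Strings of consecutive primes with composite almost prime affine combinations.** -/
theorem aff (m q a T : ℕ) (hq : Squarefree q) (ha : a.Coprime q) (hT : 1 ≤ T) :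
    ∃ (C r : ℕ) (δ : ℝ), 0 < δ ∧ ∀ l : ℕ, ∃ B : ℕ, ∀ᶠ N : ℕ in atTop, ∃ H : Finset ℕ,
      m ≤ H.card ∧ (∀ h ∈ H, h ≤ C) ∧
      (∀ h ∈ H, ∀ h' ∈ H, ∀ h'' ∈ H, h < h' → h' < h'' → (T + 1) * h' < h'' + T * h) ∧
      (∀ c : ℕ → ℤ, (∀ h ∈ H, |c h| ≤ T) → ∑ h ∈ H, c h = 1 →
        0 ≤ ∑ h ∈ H, c h * h ∧ ∑ h ∈ H, c h * h ≤ C) ∧
      ∃ n d : ℕ, N < n ∧ n + l * d + C ≤ 2 * N ∧ 1 ≤ d ∧ (d : ℝ) ≤ Real.log N ^ B ∧
        ∀ j < l, (∀ y ≤ C, (n + j * d + y).Prime ↔ y ∈ H) ∧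
          (∀ h ∈ H, n + j * d + h ≡ a [MOD q]) ∧
          ∀ c : ℕ → ℤ, (∀ h ∈ H, |c h| ≤ T) → ∑ h ∈ H, c h = 1 →
            (∃ h₀ ∈ H, ∀ h ∈ H, c h = if h = h₀ then 1 else 0) ∨
            Cap r ((N : ℝ) ^ δ) ((n + j * d : ℕ) + ∑ h ∈ H, c h * h).toNat := by
  classical
  obtain ⟨k, hk⟩ := runsX m q a hq ha
  obtain ⟨L, hL⟩ : ∃ L, L = T + 2 := ⟨_, rfl⟩
  obtain ⟨W, hW2, hqW, δ₁, hδ₁, hW⟩ := hk ((2 * T + 1) ^ (2 ^ k))
  obtain ⟨c₀, hc₀⟩ : ∃ c₀, c₀ = T * (2 ^ k * L ^ (2 ^ k)) := ⟨_, rfl⟩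
  have hκ : 0 < 2 ^ k := by positivity
  have hL2 : 2 ≤ L := by omega
  have ht : Function.Injective (fun i : Fin (2 ^ k) => c₀ + L ^ (i : ℕ)) := by
    intro i i' h
    have h1 : L ^ (i : ℕ) = L ^ (i' : ℕ) := Nat.add_left_cancel h
    exact Fin.ext (Nat.pow_right_injective hL2 h1)
  obtain ⟨U, hUd⟩ : ∃ U : Finset ℤ, U = (Fintype.piFinset (fun _ : Fin (2 ^ k) => Icc (-(T : ℤ)) T)).image
    (fun c : Fin (2 ^ k) → ℤ => ∑ i, c i * (L : ℤ) ^ (i : ℕ) - 1) := ⟨_, rfl⟩
  have hU : U.card ≤ (2 * T + 1) ^ (2 ^ k) := by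
    rw [hUd]
    refine card_image_le.trans (le_of_eq ?_)
    rw [Fintype.card_piFinset_const, Int.card_Icc]
    congr 1
    omega
  obtain ⟨δ, hδ, hl⟩ := hW _ ht U hU (2 * W * c₀)
  refine ⟨2 * W * c₀, ⌈2 / δ⌉₊, δ, hδ, fun l => ?_⟩
  obtain ⟨B, hB⟩ := hl (l + 2) (by omega)
  refine ⟨B, ?_⟩
  filter_upwards [hB, eventually_ge_atTop 2] with N hN hN2
  obtain ⟨I, hI, n, d, h1, h2, h3, h4, h5⟩ := hN
  have hW0 : 0 < W := by omega
  have hinj : Set.InjOn (fun i : Fin (2 ^ k) => W * (c₀ + L ^ (i : ℕ))) (I : Set (Fin (2 ^ k))) := by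
    intro i _ i' _ h
    exact ht (Nat.eq_of_mul_eq_mul_left hW0 h)
  obtain ⟨H, hH⟩ : ∃ H, H = I.image (fun i : Fin (2 ^ k) => W * (c₀ + L ^ (i : ℕ))) := ⟨_, rfl⟩
  have hmem : ∀ h ∈ H, ∃ i ∈ I, W * (c₀ + L ^ (i : ℕ)) = h := by
    intro h hh
    rw [hH, mem_image] at hh
    exact hh
  have hLk : ∀ i : Fin (2 ^ k), L ^ (i : ℕ) ≤ c₀ := by
    intro i
    have h6 : L ^ (i : ℕ) ≤ L ^ (2 ^ k) := Nat.pow_le_pow_right (by omega) i.2.le
    have h7 : 1 * (1 * L ^ (2 ^ k)) ≤ T * (2 ^ k * L ^ (2 ^ k)) :=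
      Nat.mul_le_mul hT (Nat.mul_le_mul_right _ hκ)
    omega
  have hCle : ∀ i : Fin (2 ^ k), W * (c₀ + L ^ (i : ℕ)) ≤ 2 * W * c₀ := by
    intro i
    calc W * (c₀ + L ^ (i : ℕ)) ≤ W * (c₀ + c₀) :=
          Nat.mul_le_mul_left _ (Nat.add_le_add_left (hLk i) _)
      _ = 2 * W * c₀ := by ring
  -- the combinations
  have key : ∀ c : ℕ → ℤ, (∀ h ∈ H, |c h| ≤ T) → ∑ h ∈ H, c h = 1 →
      ∃ (e : Fin (2 ^ k) → ℤ) (S : ℤ), (∀ i, |e i| ≤ T) ∧ (∀ i ∈ I, e i = c (W * (c₀ + L ^ (i : ℕ)))) ∧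
        (∀ i, i ∉ I → e i = 0) ∧
        S = ∑ i, e i * (L : ℤ) ^ (i : ℕ) ∧ ∑ h ∈ H, c h * h = W * (c₀ + S) ∧ |S| ≤ c₀ := by
    intro c hc hs
    refine ⟨fun i => if i ∈ I then c (W * (c₀ + L ^ (i : ℕ))) else 0,
      ∑ i, (if i ∈ I then c (W * (c₀ + L ^ (i : ℕ))) else 0) * (L : ℤ) ^ (i : ℕ), ?_, ?_, ?_, rfl, ?_, ?_⟩
    · intro i
      dsimp only
      split_ifs with hi
      · apply hc
        rw [hH]
        exact mem_image_of_mem _ hi
      · simp
    · intro i hi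
      exact if_pos hi
    · intro i hi
      exact if_neg hi
    · have e1 : ∑ i, (if i ∈ I then c (W * (c₀ + L ^ (i : ℕ))) else 0) * (L : ℤ) ^ (i : ℕ) =
          ∑ i ∈ I, c (W * (c₀ + L ^ (i : ℕ))) * (L : ℤ) ^ (i : ℕ) := by
        simp only [ite_mul, zero_mul]
        rw [← sum_filter]
        congr 1
        ext i
        simp
      rw [e1, hH, sum_image hinj]
      rw [hH, sum_image hinj] at hs
      have e2 : ∀ i ∈ I, c (W * (c₀ + L ^ (i : ℕ))) * ((W * (c₀ + L ^ (i : ℕ)) : ℕ) : ℤ) =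
          W * (c₀ * c (W * (c₀ + L ^ (i : ℕ))) + c (W * (c₀ + L ^ (i : ℕ))) * (L : ℤ) ^ (i : ℕ)) := by
        intro i _
        push_cast
        ring
      rw [sum_congr rfl e2, ← mul_sum, sum_add_distrib, ← mul_sum, hs, mul_one]
    · refine (abs_sum_le_sum_abs _ _).trans ?_
      have e3 : ∀ i ∈ (univ : Finset (Fin (2 ^ k))),
          |(if i ∈ I then c (W * (c₀ + L ^ (i : ℕ))) else 0) * (L : ℤ) ^ (i : ℕ)| ≤
          (T : ℤ) * (L : ℤ) ^ (2 ^ k) := by
        intro i _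
        have h6 : (L : ℤ) ^ (i : ℕ) ≤ (L : ℤ) ^ (2 ^ k) :=
          pow_le_pow_right₀ (by exact_mod_cast (by omega : 1 ≤ L)) i.2.le
        rw [abs_mul, abs_of_nonneg (by positivity : (0 : ℤ) ≤ (L : ℤ) ^ (i : ℕ))]
        refine mul_le_mul ?_ h6 (by positivity) (by positivity)
        split_ifs with hi
        · apply hc
          rw [hH]
          exact mem_image_of_mem _ hi
        · simp
      refine (sum_le_sum e3).trans (le_of_eq ?_)
      rw [sum_const, card_univ, Fintype.card_fin, hc₀, nsmul_eq_mul]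
      push_cast
      ring
  have hL1 : (1 : ℤ) ≤ L := by exact_mod_cast (by omega : 1 ≤ L)
  refine ⟨H, ?_, ?_, ?_, ?_, n, d, h1, ?_, h3, h4, ?_⟩
  · rw [hH, card_image_of_injOn hinj]
    exact hI.le
  · intro h hh
    obtain ⟨i, _, rfl⟩ := hmem h hh
    exact hCle i
  · intro h hh h' hh' h'' hh'' g1 g2
    obtain ⟨i, _, rfl⟩ := hmem h hh
    obtain ⟨i', _, rfl⟩ := hmem h' hh'
    obtain ⟨i'', _, rfl⟩ := hmem h'' hh''
    have g3 : L ^ (i' : ℕ) < L ^ (i'' : ℕ) := by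
      have := Nat.lt_of_mul_lt_mul_left g2
      omega
    have g4 : (i' : ℕ) < i'' := (Nat.pow_lt_pow_iff_right (by omega)).1 g3
    have g5 : L ^ (i' : ℕ) * L ≤ L ^ (i'' : ℕ) := by
      rw [← pow_succ]
      exact Nat.pow_le_pow_right (by omega) g4
    have g6 : 0 < L ^ (i : ℕ) := by positivity
    have g7 : 0 < L ^ (i' : ℕ) := by positivity
    have g8 : (T + 1) * (c₀ + L ^ (i' : ℕ)) < (c₀ + L ^ (i'' : ℕ)) + T * (c₀ + L ^ (i : ℕ)) := by
      have g9 : L ^ (i' : ℕ) * L = (T + 1) * L ^ (i' : ℕ) + L ^ (i' : ℕ) := by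
        rw [hL]
        ring
      have g10 : (T + 1) * (c₀ + L ^ (i' : ℕ)) = c₀ + T * c₀ + (T + 1) * L ^ (i' : ℕ) := by ring
      have g11 : T * (c₀ + L ^ (i : ℕ)) = T * c₀ + T * L ^ (i : ℕ) := by ring
      omega
    calc (T + 1) * (W * (c₀ + L ^ (i' : ℕ))) = W * ((T + 1) * (c₀ + L ^ (i' : ℕ))) := by ring
      _ < W * ((c₀ + L ^ (i'' : ℕ)) + T * (c₀ + L ^ (i : ℕ))) := Nat.mul_lt_mul_of_pos_left g8 hW0
      _ = _ := by ring
  · intro c hc hs
    obtain ⟨e, S, -, -, -, -, hsum, hSle⟩ := key c hc hs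
    rw [hsum]
    rw [abs_le] at hSle
    have hWz : (0 : ℤ) < W := by exact_mod_cast hW0
    constructor
    · exact mul_nonneg hWz.le (by linarith)
    · push_cast
      nlinarith
  · have : l * d ≤ (l + 2 - 1) * d := Nat.mul_le_mul_right _ (by omega)
    omega
  · intro j hj
    obtain ⟨f1, f2, f3⟩ := h5 j (by omega)
    have hx2 : n + j * d + 2 * W * c₀ ≤ 2 * N := by
      have : j * d ≤ (l + 2 - 1) * d := Nat.mul_le_mul_right _ (by omega)
      omega
    refine ⟨?_, ?_, ?_⟩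
    · intro y hy
      constructor
      · intro hp
        by_contra hcon
        refine f3 y hy (fun i hi h => hcon ?_) hp
        rw [hH, mem_image]
        exact ⟨i, hi, h⟩
      · intro hyH
        obtain ⟨i, hi, rfl⟩ := hmem y hyH
        exact f1 i hi
    · intro h hh
      obtain ⟨i, hi, rfl⟩ := hmem h hh
      exact (f2 i).1
    · intro c hc hs
      obtain ⟨e, S, he1, he2, he3, hS, hsum, hSle⟩ := key c hc hs
      by_cases hind : ∃ h₀ ∈ H, ∀ h ∈ H, c h = if h = h₀ then 1 else 0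
      · exact Or.inl hind
      refine Or.inr ?_
      rw [hsum]
      rw [abs_le] at hSle
      obtain ⟨s, hs'⟩ : ∃ s : ℕ, (c₀ : ℤ) + S = s := Int.eq_ofNat_of_zero_le (by linarith)
      have hsle : s ≤ 2 * c₀ := by
        have : (s : ℤ) ≤ 2 * c₀ := by linarith
        exact_mod_cast this
      have hcast : (((n + j * d : ℕ) : ℤ) + W * (c₀ + S)).toNat = n + j * d + W * s := by
        rw [hs']
        have : ((n + j * d : ℕ) : ℤ) + (W : ℤ) * (s : ℤ) = ((n + j * d + W * s : ℕ) : ℤ) := by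
          push_cast
          ring
        rw [this, Int.toNat_natCast]
      rw [hcast]
      have hWs : W * s ≤ 2 * W * c₀ := by
        calc W * s ≤ W * (2 * c₀) := Nat.mul_le_mul_left _ hsle
          _ = 2 * W * c₀ := by ring
      have hrough : ∀ p : ℕ, p.Prime → p ∣ n + j * d + W * s → (N : ℝ) ^ δ ≤ p := by
        intro p hp hpd
        refine (f2 ⟨0, hκ⟩).2.2 (S - 1) ?_ p hp ?_
        · rw [hUd, mem_image]
          refine ⟨e, ?_, by rw [hS]⟩
          rw [Fintype.mem_piFinset]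
          intro i
          rw [mem_Icc]
          exact abs_le.1 (he1 i)
        · have e1 : ((n + j * d + W * (c₀ + L ^ ((⟨0, hκ⟩ : Fin (2 ^ k)) : ℕ)) : ℕ) : ℤ) +
              W * (S - 1) = ((n + j * d + W * s : ℕ) : ℤ) := by
            push_cast
            rw [← hs']
            simp only [pow_zero]
            ring
          rw [e1]
          exact_mod_cast hpd
      refine ⟨by omega, ?_, ?_, hrough⟩
      · refine f3 (W * s) hWs ?_
        intro i hi h
        apply hind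
        have h6 : c₀ + L ^ (i : ℕ) = s := Nat.eq_of_mul_eq_mul_left hW0 h
        have h7 : S = (L : ℤ) ^ (i : ℕ) := by
          have : (c₀ : ℤ) + (L : ℤ) ^ (i : ℕ) = s := by exact_mod_cast h6
          linarith
        -- the difference with the unit vector
        have h8 : ∑ i', (e i' - if i' = i then 1 else 0) * (L : ℤ) ^ (i' : ℕ) = 0 := by
          simp only [sub_mul, ite_mul, one_mul, zero_mul]
          rw [sum_sub_distrib, ← hS, h7]
          simp
        have h9 := dig_zero (L : ℤ) hL1 (2 ^ k) (fun i' => e i' - if i' = i then 1 else 0) (by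
          intro i'
          have g1 := he1 i'
          rw [abs_le] at g1 ⊢
          have g2 : (L : ℤ) = T + 2 := by rw [hL]; push_cast; ring
          rw [g2]
          split_ifs
          · constructor <;> linarith
          · constructor <;> linarith) h8
        refine ⟨W * (c₀ + L ^ (i : ℕ)), by rw [hH]; exact mem_image_of_mem _ hi, ?_⟩
        intro h' hh'
        obtain ⟨i', hi', rfl⟩ := hmem h' hh'
        have g3 := h9 i'
        have g4 : e i' = if i' = i then 1 else 0 := by linarith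
        rw [← he2 i' hi', g4]
        by_cases hii : i' = i
        · rw [if_pos hii, hii, if_pos rfl]
        · rw [if_neg hii, if_neg]
          intro hcon
          exact hii (hinj hi' hi hcon)
      · exact len_le hδ hN2 (by omega) (by omega) hrough

end Pool.Agent.U974.EX
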