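import Pool.Agent.R498.MP.PU5
import Pool.Agent.H318R2.Cr.Prod

/-!
The discarded primes at all places other than the slots, the places of the almost primes included
(after `Pool.Agent.R498.MP.discW`; the new point is that the further numbers are only sieved up to a much
smaller power, so that they are rarely prime).
-/

set_option autoImplicit false
set_option linter.unusedSectionVars false

namespace Pool.Agent.U974.EX

open Finset Filter
open Pool.Agent.R498.MT Pool.Agent.R498.MP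
open Pool.Agent.Y677.RSZ (rt Sys rhoT per_mod ev_log)
open Pool.Agent.Y852.RSZ (OmC)
open Pool.Agent.TH423.SH (PS PIj)
open Pool.Agent.W23.DC
open Pool.Agent.Y882
open Pool.Agent.Y882.PX
open Pool.Agent.Y882.KW
open Pool.Agent.TH423.SH.PSUa (ee ee_nonneg)

/-- the upper bound of Mertens -/
theorem mer_up : ∃ C₁ : ℝ, 0 < C₁ ∧ ∀ z : ℕ,
    ∏ p ∈ Pool.Agent.H318R2.Cr.Pz z, (p : ℝ) / ((p : ℝ) - 1) ≤ C₁ * Real.log z + 1 := by
  obtain ⟨c₁, c₂, hc1, -, h⟩ := Pool.Agent.H318R2.Cr.cz_bounds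
  refine ⟨1 / c₁, by positivity, fun z => ?_⟩
  rcases Nat.lt_or_ge z 2 with hz | hz
  · have he : Pool.Agent.H318R2.Cr.Pz z = ∅ := by
      rw [eq_empty_iff_forall_notMem]
      intro p hp
      obtain ⟨h1, h2⟩ := Pool.Agent.H318R2.Cr.mem_Pz.1 hp
      have := h1.two_le
      omega
    rw [he, prod_empty]
    have : 0 ≤ Real.log z := Real.log_natCast_nonneg z
    have h2 : 0 ≤ 1 / c₁ * Real.log z := by positivity
    linarith
  · have h1 := (h z hz).1
    have hV := Pool.Agent.H318R2.Cr.V_pos z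
    have e : ∏ p ∈ Pool.Agent.H318R2.Cr.Pz z, (p : ℝ) / ((p : ℝ) - 1) =
        1 / Pool.Agent.H318R2.Cr.V z := by
      unfold Pool.Agent.H318R2.Cr.V
      rw [one_div, ← prod_inv_distrib]
      refine prod_congr rfl fun p hp => ?_
      have h2 : (2 : ℝ) ≤ p := by exact_mod_cast (Pool.Agent.H318R2.Cr.mem_Pz.1 hp).1.two_le
      have h3 : (p : ℝ) ≠ 0 := by positivity
      have h4 : (p : ℝ) - 1 ≠ 0 := by linarith
      rw [one_sub_div h3, inv_div]
    rw [e]
    have h5 : 1 / Pool.Agent.H318R2.Cr.V z ≤ 1 / c₁ * Real.log z := by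
      rw [div_le_iff₀ hV]
      have : 1 / c₁ * Real.log z * Pool.Agent.H318R2.Cr.V z =
        Pool.Agent.H318R2.Cr.V z * Real.log z / c₁ := by ring
      rw [this, le_div_iff₀ hc1]
      linarith
    linarith

/-- numerical conditions -/
theorem numsX (W β : ℕ) (D η : ℝ) (hη : 0 < η) : ∀ᶠ Y : ℕ in atTop,
    4 * W * D + 8 * W ≤ η / 2 * Real.log Y ∧ (2 : ℝ) ≤ (Y : ℝ) ^ (1 / 2 : ℝ) ∧ β + 3 ≤ Y := by
  have v1 : ∀ᶠ Y : ℕ in atTop, (4 * W * D + 8 * W) / (η / 2) ≤ Real.log (Y : ℝ) :=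
    (Real.tendsto_log_atTop.comp tendsto_natCast_atTop_atTop).eventually_ge_atTop _
  have v2 : ∀ᶠ Y : ℕ in atTop, (2 : ℝ) ≤ (Y : ℝ) ^ (1 / 2 : ℝ) :=
    ((tendsto_rpow_atTop (by norm_num)).comp tendsto_natCast_atTop_atTop).eventually_ge_atTop _
  filter_upwards [v1, v2, eventually_ge_atTop (β + 3)] with Y e1 e2 e3
  refine ⟨?_, e2, e3⟩
  rw [div_le_iff₀ (by positivity)] at e1
  linarith

theorem VpP_upX (F : ℤ → ℤ) (W b β z z₂ : ℕ) {m : ℕ} (t : Fin m → ℕ) (Δ : ℕ) (hΔ : 1 ≤ Δ)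
    (hW2 : 2 ∣ W)
    (hΔp : ∀ p : ℕ, p.Prime → z₂ < p → p ≤ z → ∀ j, ∀ c : ℕ, p ∣ W * c + β →
      (p : ℤ) ∣ F ((W * (c + t j) + b : ℕ) : ℤ) → p ∣ Δ)
    (hsm : ∀ p ∈ PS W z, rhoT F W b t p + 1 ≤ p) :
    0 ≤ VpP F W b β z t ∧
      VpP F W b β z t ≤ (∏ p ∈ Pool.Agent.H318R2.Cr.Pz z₂, (p : ℝ) / ((p : ℝ) - 1)) *
        Real.sqrt (2 * Real.logb 2 Δ + 1) * Vp F W b z t := by
  have hone : ∀ p : ℕ, p.Prime → (1 : ℝ) ≤ (p : ℝ) / ((p : ℝ) - 1) := by
    intro p hp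
    have h2 : (2 : ℝ) ≤ p := by exact_mod_cast hp.two_le
    rw [le_div_iff₀ (by linarith)]
    linarith
  have hfac : ∀ p ∈ PS W z, 0 ≤ 1 - ((OmP F W b β t p).card : ℝ) / ((p : ℝ) - 1) ∧
      1 - ((OmP F W b β t p).card : ℝ) / ((p : ℝ) - 1) ≤
        ((if p ≤ z₂ then (p : ℝ) / ((p : ℝ) - 1) else 1) *
          (if p ∣ Δ then (p : ℝ) / ((p : ℝ) - 1) else 1)) * (1 - (rhoT F W b t p : ℝ) / p) ∧
      0 ≤ 1 - (rhoT F W b t p : ℝ) / p := by
    intro p hp
    have h1 := hsm p hp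
    unfold PS at hp
    rw [mem_filter, mem_Icc] at hp
    have hpp := hone p hp.2.1
    have hp2 : (2 : ℝ) ≤ p := by exact_mod_cast hp.2.1.two_le
    have hp1 : (0 : ℝ) < (p : ℝ) - 1 := by linarith
    have hle : (OmP F W b β t p).card ≤ rhoT F W b t p := by
      unfold OmP rhoT OmC
      exact card_filter_le _ _
    have h2 : ((OmP F W b β t p).card : ℝ) ≤ rhoT F W b t p := by exact_mod_cast hle
    have h3 : (rhoT F W b t p : ℝ) + 1 ≤ p := by exact_mod_cast h1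
    have h4 : (0 : ℝ) ≤ (OmP F W b β t p).card := Nat.cast_nonneg _
    have hρ : 0 ≤ 1 - (rhoT F W b t p : ℝ) / p := by
      rw [sub_nonneg, div_le_one (by linarith)]
      linarith
    have hgen : 1 - ((OmP F W b β t p).card : ℝ) / ((p : ℝ) - 1) ≤
        (p : ℝ) / ((p : ℝ) - 1) * (1 - (rhoT F W b t p : ℝ) / p) := by
      have h5 := card_OmC_pred F W b β t p hp.2.1 hp.2.2
      have h6 : (rhoT F W b t p : ℝ) ≤ (OmP F W b β t p).card + 1 := by exact_mod_cast h5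
      have h7 : (p : ℝ) / ((p : ℝ) - 1) * (1 - (rhoT F W b t p : ℝ) / p) =
          (p - rhoT F W b t p) / ((p : ℝ) - 1) := by
        field_simp
      have h8 : 1 - ((OmP F W b β t p).card : ℝ) / ((p : ℝ) - 1) =
          ((p : ℝ) - 1 - (OmP F W b β t p).card) / ((p : ℝ) - 1) := by
        field_simp
      rw [h7, h8]
      apply div_le_div_of_nonneg_right _ hp1.le
      linarith
    refine ⟨?_, ?_, hρ⟩
    · rw [sub_nonneg, div_le_one hp1]
      linarith
    · by_cases hz : p ≤ z₂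
      · rw [if_pos hz]
        refine hgen.trans ?_
        apply mul_le_mul_of_nonneg_right _ hρ
        split_ifs
        · nlinarith
        · rw [mul_one]
      · rw [if_neg hz, one_mul]
        split_ifs with hd
        · exact hgen
        · rw [one_mul]
          have h5 : (OmP F W b β t p).card = rhoT F W b t p := by
            have h6 : OmP F W b β t p = OmC F W b t p := by
              unfold OmP
              apply filter_true_of_mem
              intro c hc h7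
              unfold OmC at hc
              rw [mem_filter] at hc
              obtain ⟨_, j, hj⟩ := hc
              exact hd (hΔp p hp.2.1 (not_le.1 hz) hp.1.2 j c h7 hj)
            rw [h6]
            unfold OmC rhoT
            rfl
          rw [h5]
          have h7 : (rhoT F W b t p : ℝ) / p ≤ (rhoT F W b t p : ℝ) / ((p : ℝ) - 1) :=
            div_le_div_of_nonneg_left (Nat.cast_nonneg _) hp1 (by linarith)
          linarith
  constructor
  · exact prod_nonneg fun p hp => (hfac p hp).1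
  · unfold VpP Vp
    refine (prod_le_prod (fun p hp => (hfac p hp).1) (fun p hp => (hfac p hp).2.1)).trans ?_
    rw [prod_mul_distrib, prod_mul_distrib]
    apply mul_le_mul_of_nonneg_right _ (prod_nonneg fun p hp => (hfac p hp).2.2)
    have hPSp : ∀ p ∈ PS W z, p.Prime := by
      intro p hp
      unfold PS at hp
      rw [mem_filter] at hp
      exact hp.2.1
    have hA : ∏ p ∈ PS W z, (if p ≤ z₂ then (p : ℝ) / ((p : ℝ) - 1) else 1) ≤
        ∏ p ∈ Pool.Agent.H318R2.Cr.Pz z₂, (p : ℝ) / ((p : ℝ) - 1) := by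
      rw [← prod_filter]
      apply prod_le_prod_of_subset_of_one_le
      · intro p hp
        rw [mem_filter] at hp
        exact Pool.Agent.H318R2.Cr.mem_Pz.2 ⟨hPSp p hp.1, hp.2⟩
      · intro p hp
        rw [mem_filter] at hp
        exact zero_le_one.trans (hone p (hPSp p hp.1))
      · intro p hp _
        exact hone p (Pool.Agent.H318R2.Cr.mem_Pz.1 hp).1
    have hB : ∏ p ∈ PS W z, (if p ∣ Δ then (p : ℝ) / ((p : ℝ) - 1) else 1) ≤
        Real.sqrt (2 * Real.logb 2 Δ + 1) := by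
      rw [← prod_filter]
      obtain ⟨T, hT⟩ : ∃ T, T = (PS W z).filter (fun p => p ∣ Δ) := ⟨_, rfl⟩
      rw [← hT]
      have hTm : ∀ p ∈ T, p.Prime ∧ ¬ p ∣ W ∧ p ∣ Δ := by
        intro p hp
        rw [hT, mem_filter] at hp
        have := hp.1
        unfold PS at this
        rw [mem_filter] at this
        exact ⟨this.2.1, this.2.2, hp.2⟩
      have h1 : ∏ p ∈ T, p ∣ Δ := by
        apply Finset.prod_primes_dvd
        · intro p hp
          exact (hTm p hp).1.prime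
        · intro p hp
          exact (hTm p hp).2.2
      have h2 := Nat.le_of_dvd (by omega) h1
      have h3 : 2 ^ T.card ≤ ∏ p ∈ T, p := by
        rw [← prod_const]
        exact prod_le_prod' fun p hp => (hTm p hp).1.two_le
      have h4 : (2 : ℝ) ^ T.card ≤ Δ := by exact_mod_cast h3.trans h2
      have h5 : (T.card : ℝ) ≤ Real.logb 2 Δ := by
        rw [Real.le_logb_iff_rpow_le (by norm_num) (by exact_mod_cast hΔ)]
        rw [Real.rpow_natCast]
        exact h4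
      have h6 := prod_odd T (fun p hp => by
        obtain ⟨g1, g2, -⟩ := hTm p hp
        have g3 : p ≠ 2 := fun h => g2 (h ▸ hW2)
        have g4 := g1.two_le
        have g5 := g1.eq_one_or_self_of_dvd 2
        refine ⟨by omega, ?_⟩
        rcases Nat.mod_two_eq_zero_or_one p with h | h
        · have := g5 (Nat.dvd_of_mod_eq_zero h)
          omega
        · exact h)
      apply Real.le_sqrt_of_sq_le
      linarith
    refine mul_le_mul hA hB ?_ ?_
    · exact prod_nonneg fun p hp => by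
        split_ifs
        · exact zero_le_one.trans (hone p (hPSp p hp))
        · exact zero_le_one
    · exact prod_nonneg fun p hp =>
        zero_le_one.trans (hone p (Pool.Agent.H318R2.Cr.mem_Pz.1 hp).1)

open Classical in
/-- **The discarded primes, for systems which have only the root zero beyond a small power.** -/
theorem discX (C : ℕ) (hC1 : 1 ≤ C) (hC : CPstW C) (g n b₀ W a : ℕ) (hb : C * (g * n + 1) ≤ b₀)
    (hW : 1 ≤ W) (hW2 : 2 ∣ W) (hWp : ∀ p : ℕ, p.Prime → p ≤ C * (g * n + 1) → p ∣ W)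
    (t : Fin n → ℕ) (b β : ℕ) (ε₁ : ℝ)
    (hε : 0 < ε₁) (hεb : 2 * ε₁ * (C * b₀) ≤ 1 / 12) (hβ : ∀ j, W * t j + b ≠ β)
    (η : ℝ) (hη : 0 < η) :
    ∃ ε₂ : ℝ, 0 < ε₂ ∧ ∃ Y₀ : ℕ, ∀ F : ℤ → ℤ, SysW g F → ∀ Y : ℕ, Y₀ ≤ Y →
      ∀ z₂ : ℕ, (z₂ : ℝ) ≤ (Y : ℝ) ^ ε₂ → ∀ M L z : ℕ,
      (∀ p : ℕ, p.Prime → z₂ < p → p ≤ z → ∀ x : ℤ, (p : ℤ) ∣ F x → (p : ℤ) ∣ x) →
      Win W Y M L → (z : ℝ) < (Y : ℝ) ^ ε₁ →
      0 < Vp F W b z t → 1 ≤ Real.log Y ^ a * Vp F W b z t → ∀ s : Finset ℕ,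
      (∀ K ∈ s, K ∈ Ioc M (M + L) ∧ (W * K + β).Prime ∧
        ∀ p ∈ PS W z, ∀ i, ¬ (p : ℤ) ∣ F ((W * (K + t i) + b : ℕ) : ℤ)) →
      (s.card : ℝ) ≤ η * (L * Vp F W b z t) := by
  have hb1 : 1 ≤ b₀ := by
    have : 1 ≤ C * (g * n + 1) := Nat.mul_pos hC1 (by omega)
    omega
  have hCb : 1 ≤ C * b₀ := Nat.mul_pos hC1 hb1
  have hCbr : (1 : ℝ) ≤ (C : ℝ) * b₀ := by exact_mod_cast hCb
  have hε24 : ε₁ ≤ 1 / 24 := by nlinarith
  obtain ⟨Y1, hY1⟩ := pi_up
  obtain ⟨Y2, hY2⟩ := exJ ε₁ hε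
  obtain ⟨Y3, hY3⟩ := err_slot W (g * n) (g * n + 5) C b₀ 1 (a + 1) hW (by omega) (by omega)
    (by omega) hCb ε₁ (1 / 8) 0 le_rfl hεb (by norm_num)
  -- the primes with a common value
  set Δ : ℕ := ∏ j, (((W * t j + b : ℕ) : ℤ) - (β : ℤ)).natAbs with hΔ
  have hΔ1 : 1 ≤ Δ := by
    rw [hΔ]
    exact Finset.prod_pos fun j _ => Int.natAbs_pos.2 (by
      intro h
      apply hβ j
      have h1 : ((W * t j + b : ℕ) : ℤ) = (β : ℤ) := by linarith
      exact_mod_cast h1)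
  obtain ⟨D, hD⟩ : ∃ D : ℝ, D = Real.sqrt (2 * Real.logb 2 Δ + 1) := ⟨_, rfl⟩
  have hD0 : 0 ≤ D := by rw [hD]; exact Real.sqrt_nonneg _
  obtain ⟨C₁, hC₁, hMer⟩ := mer_up
  obtain ⟨ε₂, hε₂, hε₂'⟩ : ∃ ε₂ : ℝ, 0 < ε₂ ∧ 4 * W * (C₁ * ε₂ * D) ≤ η / 2 := by
    refine ⟨η / (8 * W * C₁ * (D + 1)), by positivity, ?_⟩
    have hWp : (0 : ℝ) < W := by exact_mod_cast hW
    have h1 : 4 * W * (C₁ * (η / (8 * W * C₁ * (D + 1))) * D) = η / 2 * (D / (D + 1)) := by
      field_simp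
      ring
    rw [h1]
    have h2 : D / (D + 1) ≤ 1 := by
      rw [div_le_one (by linarith)]
      linarith
    have h3 : 0 < η / 2 := by positivity
    nlinarith
  obtain ⟨Y4, hY4⟩ := eventually_atTop.1 (numsX W β D η hη)
  refine ⟨ε₂, hε₂, max (max Y1 Y2) (max Y3 Y4), ?_⟩
  intro F hF Y hY z₂ hz₂ M L z hFz hwin hz hV0 hV1 s hs
  have hΔp : ∀ p : ℕ, p.Prime → z₂ < p → p ≤ z → ∀ j, ∀ c : ℕ, p ∣ W * c + β →
      (p : ℤ) ∣ F ((W * (c + t j) + b : ℕ) : ℤ) → p ∣ Δ := by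
    intro p hp hpz hpz' j c h1 h2
    have h3 : (p : ℤ) ∣ (((W * t j + b : ℕ) : ℤ) - (β : ℤ)) := by
      have h4 := hFz p hp hpz hpz' _ h2
      have h5 : (p : ℤ) ∣ ((W * c + β : ℕ) : ℤ) := Int.natCast_dvd_natCast.2 h1
      have e : ((W * t j + b : ℕ) : ℤ) - (β : ℤ) = ((W * (c + t j) + b : ℕ) : ℤ) -
          ((W * c + β : ℕ) : ℤ) := by
        push_cast
        ring
      rw [e]
      exact dvd_sub h4 h5
    rw [hΔ]
    exact (Int.natCast_dvd.1 h3).trans (dvd_prod_of_mem _ (mem_univ j))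
  have hY1' := hY1 Y (((le_max_left _ _).trans (le_max_left _ _)).trans hY)
  obtain ⟨J, hJ1, hJ2⟩ := hY2 Y (((le_max_right _ _).trans (le_max_left _ _)).trans hY)
  have hY3' := hY3 Y (((le_max_left _ _).trans (le_max_right _ _)).trans hY)
  obtain ⟨e1, e2, e3⟩ := hY4 Y (((le_max_right _ _).trans (le_max_right _ _)).trans hY)
  obtain ⟨w1, w2, w3, w4, w5⟩ := hwin
  have hYr : (3 : ℝ) ≤ Y := by exact_mod_cast (by omega : 3 ≤ Y)
  have hY0 : (0 : ℝ) < Y := by linarith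
  have hYone : (1 : ℝ) ≤ Y := by linarith
  have hlY : 0 < Real.log Y := Real.log_pos (by linarith)
  have hWr : (1 : ℝ) ≤ W := by exact_mod_cast hW
  obtain ⟨X, hX⟩ : ∃ X : ℝ, X = (L : ℝ) * Vp F W b z t := ⟨_, rfl⟩
  have hX0 : 0 ≤ X := by rw [hX]; positivity
  rw [← hX]
  by_cases hco : β.Coprime W
  swap
  · -- no primes
    have hemp : s = ∅ := by
      rw [eq_empty_iff_forall_notMem]
      intro K hK
      obtain ⟨h1, h2, -⟩ := hs K hK
      rw [mem_Ioc] at h1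
      obtain ⟨p, hp, hpd⟩ := Nat.Prime.not_coprime_iff_dvd.1 hco
      have h3 : p ∣ W * K + β := (hpd.2.mul_right K).add hpd.1
      have h4 := (Nat.prime_dvd_prime_iff_eq hp h2).1 h3
      have h5 := Nat.le_of_dvd hW hpd.2
      have h6 : W * (M + 1) ≤ W * K := Nat.mul_le_mul_left _ (by omega)
      have h7 : W * (M + 1) = W * M + W := by ring
      omega
    rw [hemp, card_empty]
    push_cast
    positivity
  -- the count
  have hzJ : z ≤ 2 ^ 2 ^ J := by
    have : (z : ℝ) < 2 ^ 2 ^ J := hz.trans_le hJ1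
    have h2 : z < 2 ^ 2 ^ J := by exact_mod_cast this
    exact h2.le
  have hzM : z < W * M + β := by
    have h1 : (Y : ℝ) ^ ε₁ ≤ (Y : ℝ) ^ (1 / 2 : ℝ) :=
      Real.rpow_le_rpow_of_exponent_le hYone (by linarith)
    have h2 : (Y : ℝ) = (Y : ℝ) ^ (1 / 2 : ℝ) * (Y : ℝ) ^ (1 / 2 : ℝ) := by
      rw [← Real.rpow_add hY0]
      norm_num
    have h3 : 2 * (Y : ℝ) ^ (1 / 2 : ℝ) ≤ Y := by nlinarith
    have h4 : (Y : ℝ) ≤ 2 * (W * M : ℕ) := by exact_mod_cast w1
    have h5 : (z : ℝ) < ((W * M : ℕ) : ℝ) := by linarith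
    have h6 : z < W * M := by exact_mod_cast h5
    omega
  have hcnt := hC g n b₀ W hb hW hWp F hF t b J z 1 0 M L β hzJ le_rfl
    (fun p hp h => by
      unfold PS at hp
      rw [mem_filter] at hp
      exact hp.2.1.one_lt.ne' (Nat.dvd_one.1 h)) (Nat.coprime_one_left W) hco
    (Nat.coprime_one_right _) hzM
    ((Ioc M (M + L)).filter (fun K => K % 1 = 0 % 1 ∧ (W * K + β).Prime ∧
        ∀ p ∈ PS W z, ∀ i, ¬ (p : ℤ) ∣ F ((W * (K + t i) + b : ℕ) : ℤ)))
    (fun K => by rw [mem_filter])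
  have hsub : s ⊆ (Ioc M (M + L)).filter (fun K => K % 1 = 0 % 1 ∧ (W * K + β).Prime ∧
        ∀ p ∈ PS W z, ∀ i, ¬ (p : ℤ) ∣ F ((W * (K + t i) + b : ℕ) : ℤ)) := by
    intro K hK
    obtain ⟨h1, h2, h3⟩ := hs K hK
    rw [mem_filter]
    exact ⟨h1, by simp [Nat.mod_one], h2, h3⟩
  have hcard : (s.card : ℝ) ≤ (((Ioc M (M + L)).filter (fun K => K % 1 = 0 % 1 ∧
      (W * K + β).Prime ∧
      ∀ p ∈ PS W z, ∀ i, ¬ (p : ℤ) ∣ F ((W * (K + t i) + b : ℕ) : ℤ))).card : ℝ) := by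
    exact_mod_cast card_le_card hsub
  have hπ := hY1' (W * M + β) (W * (M + L) + β) (by omega) (by omega) (by
    have : W * (M + L) = W * M + W * L := by ring
    omega)
  have hxx : (((W * (M + L) + β : ℕ) : ℝ) - ((W * M + β : ℕ) : ℝ)) = W * L := by
    push_cast
    ring
  rw [hxx] at hπ
  have hπ0 : 0 ≤ H343E.pi1 (W * (M + L) + β) - H343E.pi1 (W * M + β) := by
    unfold H343E.pi1
    rw [← Pool.Agent.TH423.SH.PSUa.cnt _ (W * M + β) (W * (M + L) + β) (by
      have : W * M ≤ W * (M + L) := Nat.mul_le_mul_left _ (by omega)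
      omega)]
    exact Nat.cast_nonneg _
  have hsm : ∀ p ∈ PS W z, rhoT F W b t p + 1 ≤ p := by
    intro p hp
    unfold PS at hp
    rw [mem_filter] at hp
    have h1 := Pool.Agent.Y833.RSZ.rhoT_le hp.2.1 (hF.per p hp.2.1) W b t hp.2.2
    have h2 : n * rt F p ≤ n * g := Nat.mul_le_mul_left _ (hF.root p hp.2.1).1
    have h3 : g * n + 1 < p := by
      by_contra hcon
      apply hp.2.2
      apply hWp p hp.2.1
      have h4 : g * n + 1 ≤ C * (g * n + 1) := Nat.le_mul_of_pos_left _ hC1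
      omega
    have h4 : n * g = g * n := mul_comm _ _
    omega
  obtain ⟨v1, v2'⟩ := VpP_upX F W b β z z₂ t Δ hΔ1 hW2 hΔp hsm
  obtain ⟨Q, hQ⟩ : ∃ Q : ℝ, Q = (C₁ * ε₂ * Real.log Y + 1) * D := ⟨_, rfl⟩
  have hQ0 : 0 ≤ Q := by rw [hQ]; positivity
  have hQle : (∏ p ∈ Pool.Agent.H318R2.Cr.Pz z₂, (p : ℝ) / ((p : ℝ) - 1)) *
      Real.sqrt (2 * Real.logb 2 Δ + 1) ≤ Q := by
    rw [hQ, ← hD]
    apply mul_le_mul_of_nonneg_right _ hD0
    refine (hMer z₂).trans ?_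
    have h1 : Real.log z₂ ≤ ε₂ * Real.log Y := by
      rcases Nat.eq_zero_or_pos z₂ with h0 | h0
      · rw [h0, Nat.cast_zero, Real.log_zero]
        positivity
      · have h2 := Real.log_le_log (by exact_mod_cast h0) hz₂
        rwa [Real.log_rpow hY0] at h2
    have h3 := mul_le_mul_of_nonneg_left h1 hC₁.le
    linarith
  have v2 : VpP F W b β z t ≤ Q * Vp F W b z t :=
    v2'.trans (mul_le_mul_of_nonneg_right hQle hV0.le)
  -- the error
  have herr : erP (g * n) C b₀ W J z 1 (W * M + β) (W * (M + L) + β) ≤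
      Y / Real.log Y ^ (a + 1) := by
    have h1 := hY3' z J (W * M + β) (W * (M + L) + β) (by
      have : W * M ≤ W * (M + L) := Nat.mul_le_mul_left _ (by omega)
      omega) (by omega) (by omega) hz hJ2
    refine le_trans ?_ h1
    have h2 := single_le_sum (f := fun T : Pg Gi Y ε₁ (1 / 8) → Option (Fin 1) => 5 ^ nc T *
      (if lt (ls Gi Y ε₁ (1 / 8)) T ≤ 2 * 0 then
        erP (g * n) C b₀ W J z (DT (fun s : Pg Gi Y ε₁ (1 / 8) => (s : ℕ)) T) (W * M + β)
          (W * (M + L) + β) else 0)) (s := univ)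
      (fun T _ => mul_nonneg (by positivity) (by
        split_ifs
        · exact erP_nonneg _ _ _ _ _ _ _ _ _
        · exact le_rfl)) (mem_univ (fun _ => none))
    refine le_trans (le_of_eq ?_) h2
    have h3 : nc (fun _ : Pg Gi Y ε₁ (1 / 8) => (none : Option (Fin 1))) = 0 := by simp [nc]
    have h4 : lt (ls Gi Y ε₁ (1 / 8)) (fun _ => (none : Option (Fin 1))) ≤ 2 * 0 := by simp [lt]
    have h5 : DT (fun s : Pg Gi Y ε₁ (1 / 8) => (s : ℕ)) (fun _ => (none : Option (Fin 1))) = 1 := by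
      simp [DT]
    rw [h3, if_pos h4, h5, pow_zero, one_mul]
  set π := H343E.pi1 (W * (M + L) + β) - H343E.pi1 (W * M + β) with hπd
  set VP := VpP F W b β z t with hVP
  have hφ : (1 : ℝ) ≤ (Nat.totient W : ℝ) * Nat.totient 1 := by
    rw [Nat.totient_one]
    push_cast
    rw [mul_one]
    exact_mod_cast Nat.totient_pos.2 (by omega)
  have hXβ : π / ((Nat.totient W : ℝ) * Nat.totient 1) * VP ≤
      2 * (W * L) / Real.log Y * (Q * Vp F W b z t) := by
    have h1 : π / ((Nat.totient W : ℝ) * Nat.totient 1) ≤ π := div_le_self hπ0 hφ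
    exact mul_le_mul (h1.trans hπ) v2 v1 (by positivity)
  have hXβ0 : 0 ≤ π / ((Nat.totient W : ℝ) * Nat.totient 1) * VP := by positivity
  have hhalf : (1 / 2 : ℝ) ^ b₀ ≤ 1 := pow_le_one₀ (by norm_num) (by norm_num)
  rw [abs_le] at hcnt
  have hc2 := hcnt.2
  have h1 : (s.card : ℝ) ≤ 2 * (2 * (W * L) / Real.log Y * (Q * Vp F W b z t)) +
      Y / Real.log Y ^ (a + 1) := by
    have h2 : (1 / 2 : ℝ) ^ b₀ * (π / ((Nat.totient W : ℝ) * Nat.totient 1) * VP) ≤
        1 * (π / ((Nat.totient W : ℝ) * Nat.totient 1) * VP) :=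
      mul_le_mul_of_nonneg_right hhalf hXβ0
    linarith
  have h2 : (Y : ℝ) / Real.log Y ^ (a + 1) ≤ 8 * W * X / Real.log Y := by
    rw [div_le_div_iff₀ (by positivity) hlY]
    have h3 : (Y : ℝ) ≤ 8 * (W * L) := by exact_mod_cast w4
    have h4 : (Y : ℝ) * 1 ≤ (8 * (W * L)) * (Real.log Y ^ a * Vp F W b z t) :=
      mul_le_mul h3 hV1 (by norm_num) (by positivity)
    have h5 : (Y : ℝ) * Real.log Y ≤ ((8 * (W * L)) * (Real.log Y ^ a * Vp F W b z t)) *
        Real.log Y := by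
      apply mul_le_mul_of_nonneg_right _ hlY.le
      linarith
    refine h5.trans (le_of_eq ?_)
    rw [hX, pow_succ]
    ring
  have h3 : 2 * (2 * (W * L) / Real.log Y * (Q * Vp F W b z t)) = 4 * W * Q * X / Real.log Y := by
    rw [hX]
    ring
  have h4 : 4 * W * Q * X / Real.log Y + 8 * W * X / Real.log Y =
      (4 * W * Q + 8 * W) / Real.log Y * X := by ring
  have h5 : (4 * W * Q + 8 * W) / Real.log Y ≤ η := by
    rw [div_le_iff₀ hlY, hQ]
    have h6 : 4 * W * ((C₁ * ε₂ * Real.log Y + 1) * D) = 4 * W * (C₁ * ε₂ * D) * Real.log Y +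
        4 * W * D := by ring
    have h7 := mul_le_mul_of_nonneg_right hε₂' hlY.le
    rw [h6]
    linarith
  have h6 := mul_le_mul_of_nonneg_right h5 hX0
  linarith

end Pool.Agent.U974.EX
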