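import Pool.Agent.R498.MP.PU6
import Pool.Agent.U974.EX.Disc

/-!
The core (after `Pool.Agent.R498.MP.coreW`): the number `2 ^ k` of the slots depends only on `m`, and at all places
other than the slots there are few primes.
-/

set_option autoImplicit false
set_option linter.unusedSectionVars false

namespace Pool.Agent.U974.EX

open Finset Filter
open Pool.Agent.R498.MT Pool.Agent.R498.MP
open Pool.Agent.Y677.RSZ (rt Sys rhoT per_mod ev_log)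
open Pool.Agent.Y852.RSZ (OmC)
open Pool.Agent.TH423.SH (PS PIj)
open Pool.Agent.W23.DC
open Pool.Agent.Y882
open Pool.Agent.Y882.PX
open Pool.Agent.Y882.KW
open Pool.Agent.TH423.SH.PSUa (ee ee_nonneg)

open Classical in
/-- **The core**: the number of the slots does not depend on the number `g` of the further numbers. -/
theorem coreK (m : ℕ) : ∃ k : ℕ, ∀ g : ℕ, 1 ≤ g →
    ∃ W : ℕ, 0 < W ∧ Squarefree W ∧ (∀ p : ℕ, p.Prime → p ≤ g * 2 ^ k + 1 → p ∣ W) ∧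
      g ≤ W ∧ ∃ ε₁ c : ℝ, 0 < ε₁ ∧ ε₁ ≤ 1 / 24 ∧ 0 < c ∧
      ∀ (t : Fin (2 ^ k) → ℕ), Function.Injective t → ∀ b : ℕ,
      (∃ Y₀ : ℕ, ∀ F : ℤ → ℤ, SysW g F →
        (∀ p : ℕ, p.Prime → ∀ n : ℤ, (p : ℤ) ∣ n → (p : ℤ) ∣ F n) →
        (∀ p : ℕ, p.Prime → p ∣ W → ¬ (p : ℤ) ∣ F b) →
        ∀ Y : ℕ, Y₀ ≤ Y → ∀ M L z : ℕ, Win W Y M L →
        (z : ℝ) < (Y : ℝ) ^ ε₁ → (Y : ℝ) ^ ε₁ ≤ z + 1 →
        c * (L * Vp F W b z t) ≤ ((gp F Y ε₁ W b t m M L).card : ℝ) ∧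
        0 < Vp F W b z t ∧ 1 ≤ Real.log Y ^ (2 * (g * 2 ^ k) + 1) * Vp F W b z t) ∧
      ∀ β : ℕ, (∀ j, W * t j + b ≠ β) → ∀ η : ℝ, 0 < η →
        ∃ ε₂ : ℝ, 0 < ε₂ ∧ ∃ Y₀ : ℕ, ∀ F : ℤ → ℤ, SysW g F → ∀ Y : ℕ, Y₀ ≤ Y →
        ∀ z₂ : ℕ, (z₂ : ℝ) ≤ (Y : ℝ) ^ ε₂ → ∀ M L z : ℕ,
        (∀ p : ℕ, p.Prime → z₂ < p → p ≤ z → ∀ x : ℤ, (p : ℤ) ∣ F x → (p : ℤ) ∣ x) →
        Win W Y M L → (z : ℝ) < (Y : ℝ) ^ ε₁ →
        0 < Vp F W b z t → 1 ≤ Real.log Y ^ (2 * (g * 2 ^ k) + 1) * Vp F W b z t →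
        ∀ s : Finset ℕ,
        (∀ K ∈ s, K ∈ Ioc M (M + L) ∧ (W * K + β).Prime ∧
          ∀ p ∈ PS W z, ∀ i, ¬ (p : ℤ) ∣ F ((W * (K + t i) + b : ℕ) : ℤ)) →
        (s.card : ℝ) ≤ η * (L * Vp F W b z t) := by
  obtain ⟨Cz, hCz1, hCz⟩ := c1zW
  obtain ⟨Cp, hCp1, hCp⟩ := cPW'
  -- the number of the slots
  obtain ⟨k, hk⟩ : ∃ k : ℕ, 3 * ((m : ℝ) + 1) * 1474560 ≤ 1 / 4 * (1 / 8) * k := by
    obtain ⟨k, hk⟩ := exists_nat_ge (3 * ((m : ℝ) + 1) * 1474560 * 32)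
    refine ⟨k, ?_⟩
    linarith
  refine ⟨k, fun g hg1 => ?_⟩
  obtain ⟨W, hWpos, hWsq, hWp, hgW⟩ := exW (Cz * (g * 2 ^ k + 1) + (Cp * (g * 2 ^ k + 1) +
    (g * 2 ^ k + 1))) (g + 1)
  -- the presieve
  obtain ⟨ε₁, b₀, hε, hε1, hεe, hb₀, hbE, hεb⟩ := par 1 (1 / 8) k (Cz + Cp)
    (Cz * (g * 2 ^ k + 1) + Cp * (g * 2 ^ k + 1)) (by norm_num) (by norm_num) (1 / 24) (1 / 12)
    (by norm_num) (by norm_num)
  have hb1 : 1 ≤ b₀ := by
    have : 1 ≤ Cz * (g * 2 ^ k + 1) := Nat.mul_pos hCz1 (by omega)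
    omega
  have hεz : 2 * ε₁ * (Cz * b₀) ≤ 1 / 12 := by
    refine le_trans ?_ hεb
    push_cast
    have h1 : (0 : ℝ) ≤ 2 * ε₁ * (Cp * b₀) := by positivity
    linarith
  have hεp : 2 * ε₁ * (Cp * b₀) ≤ 1 / 12 := by
    refine le_trans ?_ hεb
    push_cast
    have h1 : (0 : ℝ) ≤ 2 * ε₁ * (Cz * b₀) := by positivity
    linarith
  obtain ⟨cV, hcV, hVlow⟩ := Vp_lowW g (2 ^ k)
  have hε11 : ε₁ ≤ 1 := by linarith
  have hAb := Ab_one k ε₁ hε hε11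
  have hom := om_bd k 1 ε₁ (by norm_num) hε hε11
  obtain ⟨c', hc'⟩ : ∃ c' : ℕ, ((2 ^ k : ℕ) : ℝ) * (2 / ε₁) ≤ c' := exists_nat_ge _
  refine ⟨W, hWpos, hWsq, fun p hp hpk => hWp p hp (by omega), by omega, ε₁,
    1 / (2 ^ k * (Ab k ε₁ * 2 ^ c') ^ 2), hε, hε1, by positivity, ?_⟩
  intro t ht b
  refine ⟨?_, fun β hβ η hη => discX Cp hCp1 hCp g (2 ^ k) b₀ W (2 * (g * 2 ^ k) + 1) (by omega)
    hWpos (hWp 2 Nat.prime_two (by
      have : 1 ≤ g * 2 ^ k := Nat.mul_pos hg1 (by positivity)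
      omega)) (fun p hp hpk => hWp p hp (by omega)) t b β ε₁ hε hεp hβ η hη⟩
  obtain ⟨N, hN⟩ : ∃ N : ℕ, ∀ i, t i ≤ N :=
    ⟨univ.sup t, fun i => Finset.le_sup (f := t) (mem_univ i)⟩
  obtain ⟨Y2, hY2⟩ := dat_of 1 Gi (fun p hp => (Gi_sys.root p hp).1) ε₁ (1 / 8) (1 / 8)
    (om k 1 ε₁) hε le_rfl (by norm_num) hom.1
    (mer_Gi ε₁ (1 / 8) (1 / 40) hε (by norm_num) (by norm_num))
  obtain ⟨Y3, hY3⟩ := exJ ε₁ hε
  obtain ⟨Y5, hY5⟩ := err_slot W (g * 2 ^ k) (g * 2 ^ k + 5 * 2 ^ k) Cp b₀ (2 ^ k)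
    (2 * (g * 2 ^ k) + 2) hWpos (by omega) (by omega)
    (by have : 1 ≤ 2 ^ k := Nat.one_le_two_pow; omega) (Nat.mul_pos hCp1 hb1) ε₁ (1 / 8) (1 / 8)
    (by norm_num) hεp le_rfl
  obtain ⟨Y6, hY6⟩ := pi_low
  obtain ⟨N₁, hN₁⟩ : ∃ N₁ : ℝ, N₁ = 1 / (4 * ε₁) := ⟨_, rfl⟩
  have hN₁0 : 0 < N₁ := by rw [hN₁]; positivity
  have hev := numsP W N 1 (2 * b + W * N + W) (2 * (g * 2 ^ k)) ε₁
    (2 ^ b₀ * 3 ^ (2 * (g * 2 ^ k)) / cV)
    (max (3 ^ (2 * (g * 2 ^ k)) / cV) (64 * W * 2 ^ k * Ab k ε₁)) (N₁ * 2 ^ b₀) hε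
    (by positivity) (by positivity) hWpos
  obtain ⟨Y4, hY4⟩ := eventually_atTop.1 hev
  refine ⟨max (max Y2 Y3) (max Y4 (max Y5 Y6)), ?_⟩
  intro F hF hFid hbW Y hY M L z hwin hz1 hz2
  simp only [max_le_iff] at hY
  obtain ⟨⟨k2, k3⟩, k4, k5, k6⟩ := hY
  have hd := hY2 Y k2
  obtain ⟨J, hJ1, hJ2⟩ := hY3 Y k3
  obtain ⟨e1, e2, e3, e4, e5, e6, e7, e8⟩ := hY4 Y k4
  obtain ⟨w1, w2, w3, w4, w5⟩ := hwin
  have e3a := (le_max_left _ _).trans e3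
  have e3b := (le_max_right _ _).trans e3
  have hY3' : 3 ≤ Y := by omega
  have hY2' : 2 ≤ Y := by omega
  have hYr : (3 : ℝ) ≤ Y := by exact_mod_cast hY3'
  have hY0 : (0 : ℝ) < Y := by linarith
  have hY1r : (1 : ℝ) ≤ Y := by linarith
  have hlY : 0 < Real.log Y := Real.log_pos (by linarith)
  rw [pow_one] at e1
  -- the sieving limit
  have hzJ : z < 2 ^ 2 ^ J := by
    have : (z : ℝ) < 2 ^ 2 ^ J := hz1.trans_le hJ1
    exact_mod_cast this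
  have hWN0 : (0 : ℝ) ≤ W * N := by positivity
  have hWz : W + 1 ≤ z := by
    have h2 : (W : ℝ) + 1 ≤ z := by linarith
    exact_mod_cast h2
  have hV := hVlow F hF W b J z t (fun p hp hpk => hWp p hp (by omega)) hzJ
  have hV0 : 0 < Vp F W b z t := lt_of_lt_of_le (by positivity) hV
  obtain ⟨hV2, hV3⟩ := num1 Y J (2 * (g * 2 ^ k)) ε₁ cV (Vp F W b z t) hY3' hε11 hcV hJ2 hV e3a
  have hLY : (Y : ℝ) ^ (1 / 2 : ℝ) ≤ L := e6 L w4
  have hD := num2 Y J (2 * (g * 2 ^ k)) Cz b₀ ε₁ cV (Vp F W b z t) L (1 / 2) (2 * (1 / 8)) hY3' hcV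
    hJ2 hV2 (by norm_num; linarith) hLY (by
      refine e2.trans (le_of_eq ?_)
      norm_num)
  have hU : ∀ (K : ℕ) (s : Pg Gi Y ε₁ (1 / 8)) i j,
      ((s : ℕ) : ℤ) ∣ Gi ((W * (K + t i) + b : ℕ) : ℤ) →
      ((s : ℕ) : ℤ) ∣ Gi ((W * (K + t j) + b : ℕ) : ℤ) → i = j := by
    intro K s i j h1 h2
    obtain ⟨h3, h4, -⟩ := Pg_mem Gi Y ε₁ (1 / 8) hY2' s
    refine uniq Gi_sys W b hWpos hWpos t ht N hN (s : ℕ) h3 ?_ K i j h1 h2
    have h5 : ((W * N : ℕ) : ℝ) ^ 1 < (s : ℕ) := by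
      push_cast
      have : (0 : ℝ) ≤ W := Nat.cast_nonneg W
      rw [pow_one]
      linarith
    exact_mod_cast h5
  have hcnt := cnt_of Cz b₀ W J z (2 ^ k) b M L F Gi t Y hY2' ε₁ (1 / 8) (2 * (1 / 8)) Gi_sys.per
    hWpos (by omega) hz1
    (fun D a hD1 hD2 s hs => hCz g (2 ^ k) b₀ W (by omega) hWpos
      (fun p hp hpk => hWp p hp (by omega)) F hF
      t b J z D a M L hzJ.le hD1 hD2 s hs) hU hD
  -- the slots
  have hbigM : (Y : ℝ) ^ (1 / 8 : ℝ) ≤ ((W * M : ℕ) : ℝ) := by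
    have h4 : (Y : ℝ) ≤ 2 * (W * M : ℕ) := by exact_mod_cast w1
    linarith
  have hzM : z < W * M := by
    have h1 : (Y : ℝ) ^ ε₁ ≤ (Y : ℝ) ^ (1 / 8 : ℝ) :=
      Real.rpow_le_rpow_of_exponent_le hY1r (by linarith)
    have h5 : (z : ℝ) < ((W * M : ℕ) : ℝ) := by linarith
    exact_mod_cast h5
  have hti : ∀ i, W * t i ≤ W * N := fun i => Nat.mul_le_mul_left _ (hN i)
  have hWW : W * (N + 1) = W * N + W := by ring
  have hMLW : W * (M + L) = W * M + W * L := by ring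
  have hXlow : ∀ i, 1 / 4 * ε₁ * (L * Vp F W b z t) ≤
      (H343E.pi1 (W * (M + L) + (W * t i + b)) - H343E.pi1 (W * M + (W * t i + b))) /
        (Nat.totient W : ℝ) * VpP F W b (W * t i + b) z t := by
    intro i
    apply X_low F hFid W b z Y L t i ε₁ _ hWpos (by omega) hε hY2' hV0 hz2 e5
    have h1 := hti i
    have h2 := hY6 Y k6 (W * M + (W * t i + b)) (W * (M + L) + (W * t i + b)) (by omega)
      (by omega) (by omega)
    refine le_trans (le_of_eq ?_) h2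
    congr 1
    push_cast
    ring
  have hX0 : 0 ≤ 1 / 4 * ε₁ * (L * Vp F W b z t) := by positivity
  have hbco : ∀ i, (W * t i + b).Coprime W := by
    intro i
    apply Nat.coprime_of_dvd
    intro p hp h1 h2
    have h3 : p ∣ b := (Nat.dvd_add_right (h2.mul_right _)).1 h1
    exact hbW p hp h2 (hFid p hp _ (Int.natCast_dvd_natCast.2 h3))
  have hφT : ∀ T : Pg Gi Y ε₁ (1 / 8) → Option (Fin (2 ^ k)), lt (ls Gi Y ε₁ (1 / 8)) T ≤ 2 * (1 / 8) →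
      (DT (fun s : Pg Gi Y ε₁ (1 / 8) => (s : ℕ)) T : ℝ) ≤ (1 + (1 / 2 : ℝ) ^ b₀ / 2) *
        Nat.totient (DT (fun s : Pg Gi Y ε₁ (1 / 8) => (s : ℕ)) T) := by
    intro T hT
    have hnc : (nc T : ℝ) ≤ N₁ := by
      have h1 : (nc T : ℝ) * ε₁ ≤ lt (ls Gi Y ε₁ (1 / 8)) T := by
        unfold nc lt
        rw [← sum_filter_add_sum_filter_not univ (fun s => T s ≠ none)]
        have h2 : (((univ.filter (fun s => T s ≠ none)).card : ℕ) : ℝ) * ε₁ ≤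
            ∑ s ∈ univ.filter (fun s => T s ≠ none), (if T s = none then 0 else
              ls Gi Y ε₁ (1 / 8) s) := by
          rw [← nsmul_eq_mul]
          apply card_nsmul_le_sum
          intro s hs
          rw [mem_filter] at hs
          rw [if_neg hs.2]
          exact (Pg_mem Gi Y ε₁ (1 / 8) hY2' s).2.2.1
        have h3 : 0 ≤ ∑ s ∈ univ.filter (fun s => ¬ T s ≠ none), (if T s = none then 0 else
              ls Gi Y ε₁ (1 / 8) s) := by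
          apply sum_nonneg
          intro s _
          split_ifs
          · exact le_rfl
          · exact hε.le.trans (Pg_mem Gi Y ε₁ (1 / 8) hY2' s).2.2.1
        linarith
      rw [hN₁, le_div_iff₀ (by positivity)]
      linarith
    have hZ : (0 : ℝ) < (Y : ℝ) ^ ε₁ := by positivity
    have hβ0 : (0 : ℝ) < (1 / 2 : ℝ) ^ b₀ := by positivity
    have hx : N₁ / (Y : ℝ) ^ ε₁ ≤ (1 / 2 : ℝ) ^ b₀ / 8 := by
      rw [div_le_iff₀ hZ]
      have h1 : (1 / 2 : ℝ) ^ b₀ * 2 ^ b₀ = 1 := by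
        rw [← mul_pow]
        norm_num
      have h2 : (1 / 2 : ℝ) ^ b₀ / 8 * (8 * (N₁ * 2 ^ b₀)) ≤ (1 / 2 : ℝ) ^ b₀ / 8 * (Y : ℝ) ^ ε₁ :=
        mul_le_mul_of_nonneg_left e8 (by positivity)
      have h3 : (1 / 2 : ℝ) ^ b₀ / 8 * (8 * (N₁ * 2 ^ b₀)) = N₁ * ((1 / 2 : ℝ) ^ b₀ * 2 ^ b₀) := by
        ring
      rw [h3, h1, mul_one] at h2
      exact h2
    have hhalf : (1 / 2 : ℝ) ^ b₀ ≤ 1 := pow_le_one₀ (by norm_num) (by norm_num)
    have h4 := tot_DT (fun s : Pg Gi Y ε₁ (1 / 8) => (s : ℕ))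
      (fun s => (Pg_mem Gi Y ε₁ (1 / 8) hY2' s).1) Subtype.val_injective T ((Y : ℝ) ^ ε₁) N₁ hZ
      (fun s => (Pg_mem Gi Y ε₁ (1 / 8) hY2' s).2.1) hnc (by linarith)
    refine h4.trans ?_
    apply mul_le_mul_of_nonneg_right _ (Nat.cast_nonneg _)
    linarith
  have hC2 : ∀ i, CntA (Ioc M (M + L))
      (fun K => nuI F W b z t K * (if (W * (K + t i) + b).Prime then 1 else 0))
      (xi Gi W b t (fun s : Pg Gi Y ε₁ (1 / 8) => (s : ℕ)))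
      (fun s => rd (some i) (qs Gi Y ε₁ (1 / 8) s) 0)
      ((H343E.pi1 (W * (M + L) + (W * t i + b)) - H343E.pi1 (W * M + (W * t i + b))) /
        (Nat.totient W : ℝ) * VpP F W b (W * t i + b) z t) (2 * (1 / 2 : ℝ) ^ b₀)
      (fun T => if lt (ls Gi Y ε₁ (1 / 8)) T ≤ 2 * (1 / 8) then
        erP (g * 2 ^ k) Cp b₀ W J z (DT (fun s : Pg Gi Y ε₁ (1 / 8) => (s : ℕ)) T)
          (W * M + (W * t i + b)) (W * (M + L) + (W * t i + b)) else 0)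
      (fun T => lt (ls Gi Y ε₁ (1 / 8)) T ≤ 2 * (1 / 8)) := by
    intro i
    refine cntA_of b₀ W z (2 ^ k) b M L F t Y hY2' ε₁ (1 / 8) (1 / 8) i hWpos (by omega) hz1 _
      (hX0.trans (hXlow i))
      (fun D => erP (g * 2 ^ k) Cp b₀ W J z D (W * M + (W * t i + b))
        (W * (M + L) + (W * t i + b)))
      (fun D => erP_nonneg _ _ _ _ _ _ _ _ _) ?_ hU hφT ?_
    · intro D a hD1 hD2 hD3 hD4 s hs
      have h1 := hCp g (2 ^ k) b₀ W (by omega) hWpos (fun p hp hpk => hWp p hp (by omega)) F hF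
        t b J z D a M L (W * t i + b) hzJ.le hD1 hD2 hD3 (hbco i) hD4 (by omega) s hs
      have e : (H343E.pi1 (W * (M + L) + (W * t i + b)) - H343E.pi1 (W * M + (W * t i + b))) /
        ((Nat.totient W : ℝ) * Nat.totient D) * VpP F W b (W * t i + b) z t =
        (H343E.pi1 (W * (M + L) + (W * t i + b)) - H343E.pi1 (W * M + (W * t i + b))) /
        (Nat.totient W : ℝ) * VpP F W b (W * t i + b) z t / Nat.totient D := by
        rw [← div_div]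
        ring
      rw [e] at h1
      exact h1
    · refine hbigM.trans ?_
      exact_mod_cast (by omega : W * M ≤ W * M + b)
  have herr : ∀ i, ∑ T : Pg Gi Y ε₁ (1 / 8) → Option (Fin (2 ^ k)), 5 ^ nc T * (if lt (ls Gi Y ε₁ (1 / 8)) T ≤ 2 * (1 / 8) then
        erP (g * 2 ^ k) Cp b₀ W J z (DT (fun s : Pg Gi Y ε₁ (1 / 8) => (s : ℕ)) T)
          (W * M + (W * t i + b)) (W * (M + L) + (W * t i + b)) else 0) ≤
      L * Vp F W b z t / (8 * 2 ^ k * Ab k ε₁) := by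
    intro i
    have h1 := hti i
    have h2 := hY5 Y k5 z J (W * M + (W * t i + b)) (W * (M + L) + (W * t i + b)) (by omega)
      (by omega) (by omega) hz1 hJ2
    refine h2.trans ?_
    have hAb0 : 0 < Ab k ε₁ := by linarith
    rw [div_le_div_iff₀ (by positivity) (by positivity)]
    have h3 : (Y : ℝ) ≤ 8 * (W * L) := by exact_mod_cast w4
    have h4 : (Y : ℝ) * 1 ≤ (8 * (W * L)) * (Real.log Y ^ (2 * (g * 2 ^ k) + 1) *
        Vp F W b z t) := mul_le_mul h3 hV3 (by norm_num) (by positivity)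
    calc (Y : ℝ) * (8 * 2 ^ k * Ab k ε₁) ≤ (8 * (W * L)) * (Real.log Y ^ (2 * (g * 2 ^ k) + 1) *
        Vp F W b z t) * (8 * 2 ^ k * Ab k ε₁) := by
          apply mul_le_mul_of_nonneg_right _ (by positivity)
          linarith
      _ = L * Vp F W b z t * Real.log Y ^ (2 * (g * 2 ^ k) + 1) * (64 * W * 2 ^ k * Ab k ε₁) := by
          ring
      _ ≤ L * Vp F W b z t * Real.log Y ^ (2 * (g * 2 ^ k) + 1) * Real.log Y :=
          mul_le_mul_of_nonneg_left e3b (by positivity)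
      _ = L * Vp F W b z t * Real.log Y ^ (2 * (g * 2 ^ k) + 2) := by
          rw [pow_succ (Real.log (Y : ℝ)) (2 * (g * 2 ^ k) + 1)]
          ring
  refine ⟨?_, hV0, hV3⟩
  exact core1PW F g hF m k W c' N b₀ Y b M L z (1 / 8) (1 / 8) ε₁ (by linarith) (by norm_num) hWpos
    hk hε (by linarith) hεe hbE hc' t hN (by omega) w5 hbW hz2 hd hU hV0 hcnt (by
      refine hbigM.trans ?_
      exact_mod_cast (by omega : W * M ≤ W * M + b)) _ (fun i => hX0.trans (hXlow i)) hXlow _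
    (fun i T => by
      split_ifs
      · exact erP_nonneg _ _ _ _ _ _ _ _ _
      · exact le_rfl) hC2 herr

end Pool.Agent.U974.EX
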