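import Pool.Agent.R498.MP.PU1
import Pool.Agent.R498.MT.Fin0
import Pool.Agent.H318R2.Cr.Prod

/-!
The system of the slots and of the further numbers, which is sieved by all primes up to `z` at the slots, and only by the
primes up to `z₂` at the further numbers. The two levels are joined in one polynomial by the Chinese remainder theorem.
-/

set_option autoImplicit false
set_option linter.unusedSectionVars false

namespace Pool.Agent.U974.EX

open Finset Polynomial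
open Pool.Agent.R498.MT Pool.Agent.R498.MP
open Pool.Agent.Y677.RSZ (rt Sys rhoT per_mod ev_log V)
open Pool.Agent.TH423.SH (PS)
open Pool.Agent.H318R2.Cr (Pz mem_Pz)

/-- the polynomial `X ∏ (X + W v)` -/
noncomputable def PV (W : ℕ) (U : Finset ℤ) : ℤ[X] := X * ∏ v ∈ U, (X + C ((W : ℤ) * v))

theorem PV_eval (W : ℕ) (U : Finset ℤ) (n : ℤ) :
    (PV W U).eval n = n * ∏ v ∈ U, (n + W * v) := by
  unfold PV
  rw [eval_mul, eval_X, eval_prod]
  congr 1
  refine prod_congr rfl fun v _ => ?_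
  simp

theorem PV_dvd (W : ℕ) (U : Finset ℤ) {p : ℕ} (hp : p.Prime) (n : ℤ) :
    (p : ℤ) ∣ (PV W U).eval n ↔ (p : ℤ) ∣ n ∨ ∃ v ∈ U, (p : ℤ) ∣ n + W * v := by
  have hp' : Prime (p : ℤ) := Nat.prime_iff_prime_int.1 hp
  rw [PV_eval, hp'.dvd_mul, hp'.dvd_finsetProd_iff]

theorem PV_ne (W : ℕ) (U : Finset ℤ) : PV W U ≠ 0 := by
  unfold PV
  refine mul_ne_zero X_ne_zero ?_
  rw [Finset.prod_ne_zero_iff]
  intro v _
  exact (monic_X_add_C _).ne_zero

theorem PV_self (W : ℕ) (U : Finset ℤ) (n : ℤ) : n ∣ (PV W U).eval n := by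
  rw [PV_eval]
  exact Dvd.intro _ rfl

/-- the system with two levels -/
noncomputable def FE (W : ℕ) (U : Finset ℤ) (E : ℤ) (n : ℤ) : ℤ := n + E * ((PV W U).eval n - n)

theorem FE_id (W : ℕ) (U : Finset ℤ) (E : ℤ) (p : ℕ) (n : ℤ) (h : (p : ℤ) ∣ n) :
    (p : ℤ) ∣ FE W U E n := by
  unfold FE
  exact dvd_add h ((dvd_sub (h.trans (PV_self W U n)) h).mul_left E)

theorem FE_one {W : ℕ} {U : Finset ℤ} {E : ℤ} {p : ℕ} (hE : (p : ℤ) ∣ E - 1) (n : ℤ) :
    (p : ℤ) ∣ FE W U E n ↔ (p : ℤ) ∣ (PV W U).eval n := by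
  have h1 : (p : ℤ) ∣ FE W U E n - (PV W U).eval n := by
    have e : FE W U E n - (PV W U).eval n = (E - 1) * ((PV W U).eval n - n) := by
      unfold FE
      ring
    rw [e]
    exact hE.mul_right _
  exact (dvd_iff_dvd_of_dvd_sub h1)

theorem FE_zero {W : ℕ} {U : Finset ℤ} {E : ℤ} {p : ℕ} (hE : (p : ℤ) ∣ E) (n : ℤ) :
    (p : ℤ) ∣ FE W U E n ↔ (p : ℤ) ∣ n := by
  unfold FE
  exact (Int.dvd_add_left (hE.mul_right _))

theorem FE_per (W : ℕ) (U : Finset ℤ) (E : ℤ) (p : ℕ) (n : ℤ) :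
    (p : ℤ) ∣ FE W U E (n + p) - FE W U E n := by
  have h1 := sub_dvd_eval_sub (n + p) n (PV W U)
  rw [add_sub_cancel_left] at h1
  have e : FE W U E (n + p) - FE W U E n =
      p + E * (((PV W U).eval (n + p) - (PV W U).eval n) - p) := by
    unfold FE
    ring
  rw [e]
  exact dvd_add dvd_rfl ((dvd_sub h1 dvd_rfl).mul_left E)

/-- the second factor modulo `p` -/
noncomputable def QE (W : ℕ) (U : Finset ℤ) (p : ℕ) (e : ZMod p) : (ZMod p)[X] :=
  C (1 - e) + C e * ∏ v ∈ U, (X + C ((W : ZMod p) * (v : ZMod p)))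

theorem QE_ne (W : ℕ) (U : Finset ℤ) (p : ℕ) [Fact p.Prime] (e : ZMod p) : QE W U p e ≠ 0 := by
  unfold QE
  by_cases he : e = 0
  · simp [he]
  intro h
  have hR : (∏ v ∈ U, (X + C ((W : ZMod p) * (v : ZMod p)))).Monic :=
    monic_prod_of_monic _ _ fun v _ => monic_X_add_C _
  have hdeg : (∏ v ∈ U, (X + C ((W : ZMod p) * (v : ZMod p)))).natDegree = U.card := by
    rw [natDegree_prod_of_monic _ _ fun v _ => monic_X_add_C _]
    simp only [natDegree_X_add_C, sum_const, smul_eq_mul, mul_one]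
  have h1 : C e * ∏ v ∈ U, (X + C ((W : ZMod p) * (v : ZMod p))) = C (e - 1) := by
    have h2 : C (e - 1) = - C (1 - e) := by
      rw [← C_neg]
      congr 1
      ring
    rw [h2]
    exact eq_neg_of_add_eq_zero_right h
  have h2 := congrArg natDegree h1
  rw [natDegree_C_mul he, hdeg, natDegree_C, card_eq_zero] at h2
  subst h2
  simp at h

theorem QE_deg (W : ℕ) (U : Finset ℤ) (p : ℕ) [Fact p.Prime] (e : ZMod p) :
    (X * QE W U p e).natDegree ≤ U.card + 1 := by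
  refine natDegree_mul_le.trans ?_
  rw [natDegree_X, add_comm]
  apply Nat.add_le_add_right
  unfold QE
  refine (natDegree_add_le _ _).trans ?_
  rw [natDegree_C]
  apply max_le (Nat.zero_le _)
  refine natDegree_C_mul_le _ _ |>.trans ?_
  rw [natDegree_prod_of_monic _ _ fun v _ => monic_X_add_C _]
  simp only [natDegree_X_add_C, sum_const, smul_eq_mul, mul_one]
  exact le_rfl

theorem FE_rt (W : ℕ) (U : Finset ℤ) (E : ℤ) {p : ℕ} (hp : p.Prime) :
    rt (FE W U E) p ≤ U.card + 1 := by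
  classical
  have : Fact p.Prime := ⟨hp⟩
  have hne : X * QE W U p (E : ZMod p) ≠ 0 := mul_ne_zero X_ne_zero (QE_ne W U p _)
  have h1 : rt (FE W U E) p ≤ (X * QE W U p (E : ZMod p)).roots.toFinset.card := by
    unfold rt
    refine card_le_card_of_injOn (fun r : ℕ => (r : ZMod p)) ?_ ?_
    · intro r hr
      have hr' := mem_filter.1 hr
      rw [mem_coe, Multiset.mem_toFinset, mem_roots hne, IsRoot.def]
      have h2 := (ZMod.intCast_zmod_eq_zero_iff_dvd (FE W U E r) p).2 hr'.2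
      rw [← h2]
      unfold FE QE
      rw [PV_eval]
      simp only [eval_mul, eval_X, eval_add, eval_C, eval_prod]
      push_cast
      ring
    · intro r hr s hs hrs
      have hr' := (mem_filter.1 hr).1
      have hs' := (mem_filter.1 hs).1
      rw [mem_range] at hr' hs'
      have h3 := (ZMod.natCast_eq_natCast_iff' r s p).1 hrs
      rwa [Nat.mod_eq_of_lt hr', Nat.mod_eq_of_lt hs'] at h3
  exact h1.trans ((Multiset.toFinset_card_le _).trans ((card_roots' _).trans (QE_deg W U p _)))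

theorem exE (z z₂ : ℕ) : ∃ E : ℤ, (∀ p : ℕ, p.Prime → p ≤ z₂ → (p : ℤ) ∣ E - 1) ∧
    ∀ p : ℕ, p.Prime → z₂ < p → p ≤ z → (p : ℤ) ∣ E := by
  classical
  have hco : IsCoprime (∏ p ∈ Pz z₂, (p : ℤ)) (∏ p ∈ (Pz z).filter (fun p => z₂ < p), (p : ℤ)) := by
    apply IsCoprime.prod_left
    intro p hp
    apply IsCoprime.prod_right
    intro r hr
    rw [mem_filter] at hr
    rw [Nat.isCoprime_iff_coprime]
    obtain ⟨h1, h2⟩ := mem_Pz.1 hp
    exact (Nat.coprime_primes h1 (mem_Pz.1 hr.1).1).2 (by omega)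
  obtain ⟨u, v, huv⟩ := hco
  refine ⟨v * ∏ p ∈ (Pz z).filter (fun p => z₂ < p), (p : ℤ), fun p hp h => ?_, fun p hp h1 h2 => ?_⟩
  · have e : v * ∏ p ∈ (Pz z).filter (fun p => z₂ < p), (p : ℤ) - 1 = -u * ∏ p ∈ Pz z₂, (p : ℤ) := by
      linear_combination huv
    rw [e]
    exact (dvd_prod_of_mem (fun p : ℕ => (p : ℤ)) (mem_Pz.2 ⟨hp, h⟩)).mul_left _
  · exact (dvd_prod_of_mem (fun p : ℕ => (p : ℤ))
      (mem_filter.2 ⟨mem_Pz.2 ⟨hp, h2⟩, h1⟩)).mul_left _

/-- `b` is not a root -/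
theorem PV_b {W : ℕ} {U : Finset ℤ} {b p : ℕ} (hp : p.Prime) (hpW : p ∣ W) (hb : b.Coprime W) :
    ¬ (p : ℤ) ∣ (PV W U).eval (b : ℤ) := by
  have hpb : ¬ (p : ℤ) ∣ (b : ℤ) := by
    intro h
    have h1 : p ∣ b := Int.natCast_dvd_natCast.1 h
    exact Nat.not_coprime_of_dvd_of_dvd hp.one_lt h1 hpW hb
  rw [PV_dvd W U hp]
  rintro (h | ⟨v, _, h⟩)
  · exact hpb h
  · apply hpb
    exact (Int.dvd_add_left ((Int.natCast_dvd_natCast.2 hpW).mul_right v)).1 h

theorem FE_sys {W g b n z₂ : ℕ} {U : Finset ℤ} {E : ℤ} (hU : U.card + 1 ≤ g) (hn : 1 ≤ n)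
    (hWp : ∀ p : ℕ, p.Prime → p ≤ g * n + 1 → p ∣ W) (hb : b.Coprime W)
    (hz : W ≤ z₂) (hW0 : 0 < W) (hE : ∀ p : ℕ, p.Prime → p ≤ z₂ → (p : ℤ) ∣ E - 1) :
    SysW g (FE W U E) ∧ ∀ p : ℕ, p.Prime → p ∣ W → ¬ (p : ℤ) ∣ FE W U E b := by
  have hbW : ∀ p : ℕ, p.Prime → p ∣ W → ¬ (p : ℤ) ∣ FE W U E b := by
    intro p hp hpW
    rw [FE_one (hE p hp ((Nat.le_of_dvd hW0 hpW).trans hz))]
    exact PV_b hp hpW hb
  refine ⟨⟨fun p _ n => FE_per W U E p n, fun p hp => ⟨(FE_rt W U E hp).trans hU, ?_⟩⟩, hbW⟩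
  by_cases hpW : p ∣ W
  · have h1 := hbW p hp hpW
    unfold rt
    have h2 : (range p).filter (fun r : ℕ => (p : ℤ) ∣ FE W U E r) ⊂ range p := by
      rw [Finset.ssubset_iff_of_subset (filter_subset _ _)]
      refine ⟨b % p, mem_range.2 (Nat.mod_lt _ hp.pos), fun h => h1 ?_⟩
      have h3 := (mem_filter.1 h).2
      exact (per_mod (F := FE W U E) (fun p _ n => FE_per W U E p n) hp (b % p) b
        (Nat.mod_modEq b p)).1 h3
    have h3 := card_lt_card h2
    rwa [card_range] at h3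
  · have h1 : g * n + 1 < p := by
      by_contra hcon
      exact hpW (hWp p hp (not_lt.1 hcon))
    have h2 : g ≤ g * n := Nat.le_mul_of_pos_right _ hn
    have h3 := FE_rt W U E hp
    omega

theorem PP_rt' (P : ℤ[X]) (W b : ℕ) {n : ℕ}
    (t : Fin n → ℕ) (p : ℕ) (hp : p.Prime) (hW : ¬ p ∣ W) :
    rt (fun n => (PP P W t).eval n) p = rhoT (fun n => P.eval n) W b t p := by
  classical
  have hper : ∀ m : ℤ, (p : ℤ) ∣ (fun n => (PP P W t).eval n) (m + p) - (fun n => (PP P W t).eval n) m := by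
    intro m
    have h1 := sub_dvd_eval_sub (m + p) m (PP P W t)
    rw [add_sub_cancel_left] at h1
    exact h1
  have h1 := Pool.Agent.Y833.RSZ.card_shift (F := fun n => (PP P W t).eval n) hp hper W b 0 hW
  rw [← h1]
  unfold rhoT
  apply congrArg Finset.card
  ext r
  rw [mem_filter, mem_filter, add_zero]
  rw [PP_dvd P W b t p hp r]

/-- comparison of the sieve products -/
theorem PP_V' (P : ℤ[X]) (W b z H : ℕ) {n : ℕ}
    (t : Fin n → ℕ) (hzH : z ≤ H) :
    V (fun n => (PP P W t).eval n) 1 H ≤ Vp (fun n => P.eval n) W b z t := by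
  classical
  have e : Vp (fun n => P.eval n) W b z t = ∏ p ∈ PS W z,
      (1 - (rt (fun n => (PP P W t).eval n) p : ℝ) / p) := by
    unfold Vp
    refine prod_congr rfl fun p hp => ?_
    unfold PS at hp
    rw [mem_filter] at hp
    rw [PP_rt' P W b t p hp.2.1 hp.2.2]
  rw [e]
  unfold V
  have hsub : PS W z ⊆ PS 1 H := by
    intro p hp
    unfold PS at hp ⊢
    rw [mem_filter, mem_Icc] at hp ⊢
    exact ⟨⟨hp.1.1, hp.1.2.trans hzH⟩, hp.2.1, by rw [Nat.dvd_one]; exact hp.2.1.ne_one⟩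
  rw [← prod_sdiff hsub]
  exact mul_le_of_le_one_left (prod_nonneg fun p _ => Pool.Agent.Y677.RSZ.fac_nonneg p)
    (prod_le_one (fun p _ => Pool.Agent.Y677.RSZ.fac_nonneg p)
      (fun p _ => Pool.Agent.Y677.RSZ.fac_le p))

/-- the product is larger for the system with two levels -/
theorem V_FE (W b z z₂ : ℕ) (U : Finset ℤ) (E : ℤ) {n : ℕ} (t : Fin n → ℕ)
    (hE1 : ∀ p : ℕ, p.Prime → p ≤ z₂ → (p : ℤ) ∣ E - 1)
    (hE2 : ∀ p : ℕ, p.Prime → z₂ < p → p ≤ z → (p : ℤ) ∣ E) :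
    Vp (fun n => (PV W U).eval n) W b z t ≤ Vp (FE W U E) W b z t := by
  classical
  unfold Vp
  apply prod_le_prod
  · intro p hp
    unfold PS at hp
    rw [mem_filter] at hp
    rw [← PP_rt' (PV W U) W b t p hp.2.1 hp.2.2]
    exact Pool.Agent.Y677.RSZ.fac_nonneg p
  · intro p hp
    unfold PS at hp
    rw [mem_filter, mem_Icc] at hp
    have hp0 : (0 : ℝ) < p := by exact_mod_cast hp.2.1.pos
    have h1 : rhoT (FE W U E) W b t p ≤ rhoT (fun n => (PV W U).eval n) W b t p := by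
      unfold rhoT
      apply card_le_card
      intro r hr
      rw [mem_filter] at hr ⊢
      obtain ⟨h1, i, hi⟩ := hr
      refine ⟨h1, i, ?_⟩
      rcases Nat.lt_or_ge z₂ p with h2 | h2
      · have h3 := (FE_zero (hE2 p hp.2.1 h2 hp.1.2) _).1 hi
        exact h3.trans (PV_self W U _)
      · exact (FE_one (hE1 p hp.2.1 h2) _).1 hi
    have h2 : (rhoT (FE W U E) W b t p : ℝ) / p ≤
        (rhoT (fun n => (PV W U).eval n) W b t p : ℝ) / p :=
      div_le_div_of_nonneg_right (by exact_mod_cast h1) hp0.le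
    linarith

theorem PP_sys' {W g b n : ℕ} (U : Finset ℤ) (hU : U.card + 1 ≤ g)
    (hWp : ∀ p : ℕ, p.Prime → p ≤ g * n + 1 → p ∣ W) (hb : b.Coprime W) (hn : 1 ≤ n) (hW0 : 0 < W)
    (t : Fin n → ℕ) : ∃ g' : ℕ, Sys g' (fun x => (PP (PV W U) W t).eval x) := by
  classical
  -- the system with `E = 1`
  have hF1 : (fun x : ℤ => (PV W U).eval x) = FE W U 1 := by
    funext x
    unfold FE
    ring
  obtain ⟨hsys, -⟩ := FE_sys (W := W) (g := g) (b := b) (n := n) (z₂ := W) (U := U) (E := 1) hU hn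
    hWp hb le_rfl hW0 (fun p _ _ => by simp)
  rw [← hF1] at hsys
  apply Pool.Agent.Y677.RSZ.poly_all _ (PP_ne (PV W U) (PV_ne W U) W t)
  intro p hp
  by_cases hpW : p ∣ W
  · refine ⟨((W * 0 + b : ℕ) : ℤ), fun h => ?_⟩
    obtain ⟨i, hi⟩ := (PP_dvd (PV W U) W b t p hp 0).1 h
    apply PV_b (U := U) hp hpW hb
    refine (per_mod (F := fun n => (PV W U).eval n) hsys.per hp (W * (0 + t i) + b) b ?_).1 hi
    have : W * (0 + t i) ≡ 0 [MOD p] := (Nat.modEq_zero_iff_dvd).2 (hpW.mul_right _)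
    simpa using this.add_right b
  · have h1 : rhoT (fun n => (PV W U).eval n) W b t p < p := by
      have h2 := Pool.Agent.Y833.RSZ.rhoT_le (F := fun n => (PV W U).eval n) hp (hsys.per p hp) W b t hpW
      have h3 : n * rt (fun n => (PV W U).eval n) p ≤ n * g := Nat.mul_le_mul_left _ (hsys.root p hp).1
      have h4 : g * n + 1 < p := by
        by_contra hcon
        exact hpW (hWp p hp (not_lt.1 hcon))
      have h5 : n * g = g * n := mul_comm _ _
      omega
    unfold rhoT at h1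
    have h2 : ∃ r ∈ range p, ¬ ∃ i, (p : ℤ) ∣ (PV W U).eval ((W * (r + t i) + b : ℕ) : ℤ) := by
      by_contra hcon
      push Not at hcon
      have h3 : (range p).filter (fun r : ℕ => ∃ i, (p : ℤ) ∣
          (fun n => (PV W U).eval n) ((W * (r + t i) + b : ℕ) : ℤ)) = range p := by
        apply filter_true_of_mem
        intro r hr
        exact hcon r hr
      rw [h3, card_range] at h1
      omega
    obtain ⟨r, -, hr⟩ := h2
    refine ⟨((W * r + b : ℕ) : ℤ), fun h => hr ?_⟩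
    exact (PP_dvd (PV W U) W b t p hp r).1 h

end Pool.Agent.U974.EX
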