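import Pool.Agent.R498.MP.PA14
import Pool.Agent.U974.EX.Sys
import Pool.Agent.U974.EX.Core

/-!
Strings of consecutive primes with composite almost primes at all prescribed further places, in narrow progressions.
-/

set_option autoImplicit false
set_option linter.unusedSectionVars false

namespace Pool.Agent.U974.EX

open Finset Filter Polynomial
open Pool.Agent.R498.MT Pool.Agent.R498.MP
open Pool.Agent.Y677.RSZ (rt Sys rhoT per_mod ev_log V eng_all)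
open Pool.Agent.TH423.SH (PS)

theorem min_pos (A : Finset ℕ) (e : ℕ → ℝ) (ε₀ : ℝ) (h0 : 0 < ε₀) (h : ∀ y ∈ A, 0 < e y) :
    ∃ ε : ℝ, 0 < ε ∧ ε ≤ ε₀ ∧ ∀ y ∈ A, ε ≤ e y := by
  classical
  induction A using Finset.induction_on with
  | empty => exact ⟨ε₀, h0, le_rfl, by simp⟩
  | insert a s ha ih =>
    obtain ⟨ε, h1, h2, h3⟩ := ih (fun y hy => h y (mem_insert_of_mem hy))
    refine ⟨min ε (e a), lt_min h1 (h a (mem_insert_self a s)), (min_le_left _ _).trans h2, ?_⟩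
    intro y hy
    rcases mem_insert.1 hy with rfl | hy
    · exact min_le_right _ _
    · exact (min_le_left _ _).trans (h3 y hy)

theorem exb (W q a : ℕ) (hW0 : 0 < W) (hW : Squarefree W) (hqW : q ∣ W) (ha : a.Coprime q) :
    ∃ b < W, b ≡ a [MOD q] ∧ b.Coprime W := by
  obtain ⟨W', rfl⟩ := hqW
  have hcop : Nat.Coprime q W' := Nat.coprime_of_squarefree_mul hW
  obtain ⟨c, hc⟩ := Nat.chineseRemainder hcop a 1
  refine ⟨c % (q * W'), Nat.mod_lt _ hW0, ?_, ?_⟩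
  · refine Nat.ModEq.trans ?_ hc.1
    exact (Nat.mod_modEq c (q * W')).of_mul_right W'
  · have h1 : Nat.Coprime c q := by
      have h2 : Nat.gcd c q = Nat.gcd a q := hc.1.gcd_eq
      unfold Nat.Coprime
      rw [h2]
      exact ha
    have h2 : Nat.Coprime c W' := by
      have h3 : Nat.gcd c W' = Nat.gcd 1 W' := hc.2.gcd_eq
      unfold Nat.Coprime
      rw [h3, Nat.gcd_one_left]
    have h3 : Nat.Coprime c (q * W') := Nat.Coprime.mul_right h1 h2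
    unfold Nat.Coprime at h3 ⊢
    rw [← h3]
    exact (Nat.mod_modEq c (q * W')).gcd_eq

open Classical in
/-- **Strings of consecutive primes with composite almost primes at prescribed further places.** -/
theorem runsX (m q a : ℕ) (hq : Squarefree q) (ha : a.Coprime q) : ∃ k : ℕ, ∀ G : ℕ,
    ∃ W : ℕ, 2 ≤ W ∧ q ∣ W ∧ ∃ δ₁ : ℝ, 0 < δ₁ ∧ ∀ t : Fin (2 ^ k) → ℕ, Function.Injective t →
    ∀ U : Finset ℤ, U.card ≤ G → ∀ C₀ : ℕ, ∃ δ : ℝ, 0 < δ ∧ ∀ l : ℕ, 2 ≤ l →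
    ∃ B : ℕ, ∀ᶠ N : ℕ in atTop, ∃ I : Finset (Fin (2 ^ k)), m < I.card ∧ ∃ n d : ℕ, N < n ∧
      n + (l - 1) * d + C₀ ≤ 2 * N ∧ 1 ≤ d ∧ (d : ℝ) ≤ Real.log N ^ B ∧ ∀ j < l,
        (∀ i ∈ I, (n + j * d + W * t i).Prime) ∧
        (∀ i, n + j * d + W * t i ≡ a [MOD q] ∧
          (∀ p : ℕ, p.Prime → p ∣ n + j * d + W * t i → (N : ℝ) ^ δ₁ ≤ p) ∧
          ∀ v ∈ U, ∀ p : ℕ, p.Prime → (p : ℤ) ∣ ((n + j * d + W * t i : ℕ) : ℤ) + W * v →
            (N : ℝ) ^ δ ≤ p) ∧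
        ∀ y ≤ C₀, (∀ i ∈ I, W * t i ≠ y) → ¬ (n + j * d + y).Prime := by
  obtain ⟨k, hk⟩ := coreK m
  refine ⟨k, fun G => ?_⟩
  obtain ⟨g, hg⟩ : ∃ g, g = G + q + 1 := ⟨_, rfl⟩
  obtain ⟨W, hW0, hWsq, hWp, hgW, ε₁, c, hε, hε24, hc, hcore⟩ := hk g (by omega)
  have h2k : 1 ≤ 2 ^ k := Nat.one_le_two_pow
  have hg2 : g ≤ g * 2 ^ k := Nat.le_mul_of_pos_right _ (by positivity)
  have hW2 : 2 ≤ W := by
    have h1 : 2 ∣ W := hWp 2 Nat.prime_two (by omega)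
    exact Nat.le_of_dvd hW0 h1
  have hqW : q ∣ W := by
    have h1 : ∏ p ∈ q.primeFactors, p ∣ W := by
      apply Finset.prod_primes_dvd
      · intro p hp
        exact (Nat.prime_of_mem_primeFactors hp).prime
      · intro p hp
        apply hWp p (Nat.prime_of_mem_primeFactors hp)
        have h2 : p ≤ q := Nat.le_of_mem_primeFactors hp
        omega
    rwa [Nat.prod_primeFactors_of_squarefree hq] at h1
  obtain ⟨b₁, hb₁W, hb₁q, hb₁⟩ := exb W q a hW0 hWsq hqW ha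
  obtain ⟨b, hbd⟩ : ∃ b, b = W + b₁ := ⟨_, rfl⟩
  have hbW : b.Coprime W := by
    rw [hbd]
    simpa using hb₁
  have hbq : b ≡ a [MOD q] := by
    rw [hbd]
    have h1 : W ≡ 0 [MOD q] := (Nat.modEq_zero_iff_dvd).2 hqW
    simpa using h1.add hb₁q
  refine ⟨W, hW2, hqW, ε₁, hε, ?_⟩
  intro t ht U hU C₀
  obtain ⟨⟨Y₀, hcore1⟩, hcore2⟩ := hcore t ht b
  obtain ⟨E', hE'⟩ : ∃ E', E' = (range (C₀ + 1)).filter (fun y => ∀ i, W * t i ≠ y) := ⟨_, rfl⟩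
  obtain ⟨η, hη⟩ : ∃ η : ℝ, η = c / (2 * (E'.card + 1)) := ⟨_, rfl⟩
  have hη0 : 0 < η := by rw [hη]; positivity
  have hcore3 : ∀ y : ℕ, ∃ e : ℝ, y ∈ E' → 0 < e ∧ ∃ Y₁ : ℕ, ∀ F : ℤ → ℤ, SysW g F →
        ∀ Y : ℕ, Y₁ ≤ Y → ∀ z₂ : ℕ, (z₂ : ℝ) ≤ (Y : ℝ) ^ e → ∀ M L z : ℕ,
        (∀ p : ℕ, p.Prime → z₂ < p → p ≤ z → ∀ x : ℤ, (p : ℤ) ∣ F x → (p : ℤ) ∣ x) →
        Win W Y M L → (z : ℝ) < (Y : ℝ) ^ ε₁ →
        0 < Vp F W b z t → 1 ≤ Real.log Y ^ (2 * (g * 2 ^ k) + 1) * Vp F W b z t →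
        ∀ s : Finset ℕ,
        (∀ K ∈ s, K ∈ Ioc M (M + L) ∧ (W * K + (b + y)).Prime ∧
          ∀ p ∈ PS W z, ∀ i, ¬ (p : ℤ) ∣ F ((W * (K + t i) + b : ℕ) : ℤ)) →
        (s.card : ℝ) ≤ η * (L * Vp F W b z t) := by
    intro y
    by_cases hy : y ∈ E'
    · obtain ⟨e, h1, h2⟩ := hcore2 (b + y) (by
        intro j h
        rw [hE', mem_filter] at hy
        exact hy.2 j (by omega)) η hη0
      exact ⟨e, fun _ => ⟨h1, h2⟩⟩
    · exact ⟨1, fun h => absurd h hy⟩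
  choose e he using hcore3
  obtain ⟨ε₂, hε₂, hε₂₁, hε₂e⟩ := min_pos E' e (ε₁ / 2) (by positivity) (fun y hy => (he y hy).1)
  refine ⟨ε₂, hε₂, fun l hl => ?_⟩
  have hUg : U.card + 1 ≤ g := by omega
  obtain ⟨g', hS⟩ := PP_sys' (W := W) (g := g) (b := b) (n := 2 ^ k) U hUg hWp hbW h2k hW0 t
  obtain ⟨KP, DP, hKD⟩ := Pool.Agent.W123.RU.Poly.eval_bound (PP (PV W U) W t)
  obtain ⟨n₀, hn₀⟩ := Pool.Agent.Y677.RSZ.ne_zero_ev (PP (PV W U) W t) (PP_ne (PV W U) (PV_ne W U) W t)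
  obtain ⟨κ, hκ⟩ : ∃ κ : ℝ, κ = c / (2 * 2 ^ 2 ^ k) / W := ⟨_, rfl⟩
  have hW0r : (0 : ℝ) < W := by exact_mod_cast hW0
  have hκ0 : 0 < κ := by rw [hκ]; positivity
  obtain ⟨B, H₀, hB⟩ := eng_all l (g' + 4 * (DP + 1)) (ε₂ / 2) κ hl (by positivity) hκ0
  -- the other primes
  have hdisc : ∀ᶠ N : ℕ in atTop, ∀ y ∈ E', ∀ F : ℤ → ℤ, SysW g F → ∀ z₂ : ℕ, (z₂ : ℝ) ≤ (N : ℝ) ^ ε₂ →
        ∀ M L z : ℕ,
        (∀ p : ℕ, p.Prime → z₂ < p → p ≤ z → ∀ x : ℤ, (p : ℤ) ∣ F x → (p : ℤ) ∣ x) →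
        Win W N M L → (z : ℝ) < (N : ℝ) ^ ε₁ →
        0 < Vp F W b z t → 1 ≤ Real.log N ^ (2 * (g * 2 ^ k) + 1) * Vp F W b z t →
        ∀ s : Finset ℕ,
        (∀ K ∈ s, K ∈ Ioc M (M + L) ∧ (W * K + (b + y)).Prime ∧
          ∀ p ∈ PS W z, ∀ i, ¬ (p : ℤ) ∣ F ((W * (K + t i) + b : ℕ) : ℤ)) →
        (s.card : ℝ) ≤ η * (L * Vp F W b z t) := by
    rw [Finset.eventually_all]
    intro y hy
    obtain ⟨h1, Y₁, hY₁⟩ := he y hy
    filter_upwards [eventually_ge_atTop Y₁, eventually_ge_atTop 1] with N hN hN1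
    intro F hF z₂ hz₂ M L z hFz h2 h3 h4 h5 s hs
    refine hY₁ F hF N hN z₂ (hz₂.trans ?_) M L z hFz h2 h3 h4 h5 s hs
    exact Real.rpow_le_rpow_of_exponent_le (by exact_mod_cast hN1) (hε₂e y hy)
  have hlarge : ∀ᶠ N : ℕ in atTop, (W : ℝ) ≤ (N : ℝ) ^ ε₂ :=
    ((tendsto_rpow_atTop hε₂).comp tendsto_natCast_atTop_atTop).eventually_ge_atTop _
  refine ⟨B, ?_⟩
  filter_upwards [hdisc, numsE W 0 b Y₀ n₀ KP H₀ C₀ hW2 (by omega), hlarge] with N hN1 hN2 hN3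
  obtain ⟨n1, n2, n3, n4, n5, n6, n7, n8, n9, n10⟩ := hN2
  rw [add_zero] at n5 n9
  obtain ⟨M, hM⟩ : ∃ M : ℕ, M = N / W := ⟨_, rfl⟩
  obtain ⟨L, hL⟩ : ∃ L : ℕ, L = N / (2 * W) := ⟨_, rfl⟩
  rw [← hM, ← hL] at n5
  rw [← hL] at n6 n7 n8 n9
  have hNr : (16 : ℝ) ≤ N := by exact_mod_cast n2
  have hN0 : (0 : ℝ) < N := by linarith
  have hN1r : (1 : ℝ) ≤ N := by linarith
  obtain ⟨z, hz⟩ : ∃ z : ℕ, z + 1 = ⌈(N : ℝ) ^ ε₁⌉₊ := by
    have : 1 ≤ ⌈(N : ℝ) ^ ε₁⌉₊ := Nat.ceil_pos.2 (by positivity)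
    exact ⟨⌈(N : ℝ) ^ ε₁⌉₊ - 1, by omega⟩
  have hz1 : (z : ℝ) < (N : ℝ) ^ ε₁ := by
    have h1 := Nat.ceil_lt_add_one (show 0 ≤ (N : ℝ) ^ ε₁ by positivity)
    rw [← hz] at h1
    push_cast at h1
    linarith
  have hz2 : (N : ℝ) ^ ε₁ ≤ z + 1 := by
    have h1 := Nat.le_ceil ((N : ℝ) ^ ε₁)
    rw [← hz] at h1
    push_cast at h1
    exact h1
  obtain ⟨z₂, hz₂⟩ : ∃ z₂ : ℕ, z₂ = ⌊(N : ℝ) ^ ε₂⌋₊ := ⟨_, rfl⟩
  have hz₂1 : (z₂ : ℝ) ≤ (N : ℝ) ^ ε₂ := by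
    rw [hz₂]
    exact Nat.floor_le (by positivity)
  have hz₂2 : ∀ p : ℕ, (p : ℝ) ≤ (N : ℝ) ^ ε₂ → p ≤ z₂ := by
    intro p hp
    rw [hz₂]
    exact Nat.le_floor hp
  have hε₂₁' : (N : ℝ) ^ ε₂ < (N : ℝ) ^ ε₁ := Real.rpow_lt_rpow_of_exponent_lt (by linarith) (by linarith)
  obtain ⟨E, hE1, hE2⟩ := exE z z₂
  obtain ⟨F, hF⟩ : ∃ F, F = FE W U E := ⟨_, rfl⟩
  obtain ⟨hFs, hFb⟩ := FE_sys (W := W) (g := g) (b := b) (n := 2 ^ k) (z₂ := z₂) (U := U) (E := E) hUg h2k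
    hWp hbW (hz₂2 W hN3) hW0 hE1
  rw [← hF] at hFs hFb
  have hFid : ∀ p : ℕ, p.Prime → ∀ n : ℤ, (p : ℤ) ∣ n → (p : ℤ) ∣ F n := by
    intro p _ n h
    rw [hF]
    exact FE_id W U E p n h
  have hFz : ∀ p : ℕ, p.Prime → z₂ < p → p ≤ z → ∀ x : ℤ, (p : ℤ) ∣ F x → (p : ℤ) ∣ x := by
    intro p hp h1 h2 x h3
    rw [hF, FE_zero (hE2 p hp h1 h2)] at h3
    exact h3
  have hFP : ∀ p : ℕ, p.Prime → p ≤ z₂ → ∀ x : ℤ, (p : ℤ) ∣ (PV W U).eval x → (p : ℤ) ∣ F x := by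
    intro p hp h1 x h3
    rw [hF, FE_one (hE1 p hp h1)]
    exact h3
  obtain ⟨hgd, hV0, hV1⟩ := hcore1 F hFs hFid hFb N n1 M L z n5 hz1 hz2
  have hWL1 : 1 ≤ W * L := by
    have h1 : (1 : ℝ) ≤ ((W * L : ℕ) : ℝ) := le_trans (Real.one_le_rpow hN1r (by norm_num)) n7
    exact_mod_cast h1
  have hL1 : 1 ≤ L := by
    rcases Nat.eq_zero_or_pos L with h | h
    · rw [h, mul_zero] at hWL1
      omega
    · exact h
  have hLr : (0 : ℝ) < L := by exact_mod_cast hL1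
  obtain ⟨Hs, A, hHs, hA1, hA2⟩ := manyP F W b M L z N k m
    (2 * (g * 2 ^ k) + 1) ε₁ c (Vp F W b z t) t E' (fun y => b + y) hc hV0
    hLr hz1 hgd (fun y hy s hs => by
      rw [← hη]
      exact hN1 y hy F hFs z₂ hz₂1 M L z hFz n5 hz1 hV0 hV1 s hs)
  -- the progression
  have hWM : W * M ≤ N := by rw [hM]; exact Nat.mul_div_le _ _
  have hWM1 : N < W * (M + 1) := by
    rw [hM]
    exact Nat.lt_mul_div_succ N hW0
  have hWM2 : W * (M + 1) = W * M + W := by ring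
  have hWML : W * (M + L) = W * M + W * L := by ring
  have hbds : ∀ K ∈ Ioc M (M + L), N < W * K ∧ W * K + b ≤ N + W * L + b := by
    intro K hK
    rw [mem_Ioc] at hK
    have h2 : W * (M + 1) ≤ W * K := Nat.mul_le_mul_left _ (by omega)
    have h3 : W * K ≤ W * (M + L) := Nat.mul_le_mul_left _ hK.2
    exact ⟨by omega, by omega⟩
  have hWLr : (1 : ℝ) ≤ ((W * L : ℕ) : ℝ) := by exact_mod_cast hWL1
  have hWLN : ((W * L : ℕ) : ℝ) ≤ N := by exact_mod_cast n8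
  have hKPr : (KP : ℝ) ≤ N := by exact_mod_cast n4
  have hrough : ∀ K ∈ A, ∀ p : ℕ, p.Prime → (p : ℝ) < (N : ℝ) ^ ε₂ → ∀ i,
      ¬ (p : ℤ) ∣ (PV W U).eval ((W * (K + t i) + b : ℕ) : ℤ) := by
    intro K hK p hp h1 i h2
    exact (hA2 K hK).2.1 p hp (h1.trans hε₂₁') i (hFP p hp (hz₂2 p h1.le) _ h2)
  obtain ⟨a', d, hd1, hd2, had⟩ := hB (fun n => (PP (PV W U) W t).eval n) (W * M + b) (W * L)
    (A.image (fun K => W * K + b)) (Pool.Agent.Y677.RSZ.Sys.mono hS (by omega)) n6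
    (by
      intro n hn
      rw [mem_Ioc] at hn
      have hn1 : n ≤ 3 * N + b := by omega
      have hn2 : N ≤ n + W := by omega
      refine ⟨?_, ?_⟩
      · exact hn₀ n (by omega)
      · have h8 := size_P (PP (PV W U) W t) KP DP N (W * L) hKD (by omega) hKPr n7 n (by
          have : n + 1 ≤ N ^ 2 := by omega
          exact_mod_cast this)
        refine h8.trans ?_
        exact pow_le_pow_right₀ (by exact_mod_cast hWL1) (by omega))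
    (by
      intro x hx
      rw [mem_image] at hx
      obtain ⟨K, hK, rfl⟩ := hx
      have h1 := (hA2 K hK).1
      rw [mem_Ioc] at h1 ⊢
      have h2 : W * (M + 1) ≤ W * K := Nat.mul_le_mul_left _ (by omega)
      have h3 : W * K ≤ W * (M + L) := Nat.mul_le_mul_left _ h1.2
      constructor <;> omega)
    (by
      intro x hx p hp hpH hdvd
      rw [mem_image] at hx
      obtain ⟨K, hK, rfl⟩ := hx
      obtain ⟨i, hi⟩ := (PP_dvd (PV W U) W b t p hp K).1 hdvd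
      refine hrough K hK p hp ?_ i hi
      refine hpH.trans_lt ?_
      calc ((W * L : ℕ) : ℝ) ^ (ε₂ / 2) ≤ (N : ℝ) ^ (ε₂ / 2) :=
            Real.rpow_le_rpow (by positivity) hWLN (by positivity)
        _ < (N : ℝ) ^ ε₂ := Real.rpow_lt_rpow_of_exponent_lt (by linarith) (by linarith))
    (by
      rw [card_image_of_injective _ (fun K K' hKK => by
        have h1 : W * K + b = W * K' + b := hKK
        have h2 : W * K = W * K' := by omega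
        exact Nat.eq_of_mul_eq_mul_left hW0 h2)]
      refine le_trans ?_ hA1
      have hzWL : z ≤ W * L := by
        have h1 : (z : ℝ) ≤ ((W * L : ℕ) : ℝ) := by
          refine hz1.le.trans (le_trans ?_ n7)
          exact Real.rpow_le_rpow_of_exponent_le hN1r (by linarith)
        exact_mod_cast h1
      have h1 : V (fun n => (PP (PV W U) W t).eval n) 1 (W * L) ≤ Vp F W b z t := by
        rw [hF]
        exact (PP_V' (PV W U) W b z (W * L) t hzWL).trans (V_FE W b z z₂ U E t hE1 hE2)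
      calc κ * ((W * L : ℕ) * V (fun n => (PP (PV W U) W t).eval n) 1 (W * L)) ≤
          κ * ((W * L : ℕ) * Vp F W b z t) := by gcongr
        _ = c / (2 * 2 ^ 2 ^ k) * (L * Vp F W b z t) := by
            rw [hκ]
            push_cast
            field_simp)
  have hpt : ∀ j < l, ∃ K ∈ A, W * K + b = a' + j * d := by
    intro j hj
    have h1 := had j hj
    rw [mem_image] at h1
    obtain ⟨K, hK, h2⟩ := h1
    exact ⟨K, hK, h2⟩
  obtain ⟨K0, hK0, hK0a⟩ := hpt 0 (by omega)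
  rw [zero_mul, add_zero] at hK0a
  obtain ⟨K1, hK1, hK1a⟩ := hpt (l - 1) (by omega)
  have hb0 := hbds K0 (hA2 K0 hK0).1
  have hb1 := hbds K1 (hA2 K1 hK1).1
  rw [hK1a] at hb1
  refine ⟨Hs, hHs, a', d, by omega, by omega, hd1, ?_, ?_⟩
  · refine hd2.trans ?_
    apply pow_le_pow_left₀ (Real.log_nonneg hWLr)
    exact Real.log_le_log (by linarith) hWLN
  · intro j hj
    obtain ⟨K, hK, hKa⟩ := hpt j hj
    obtain ⟨hK1', hK2', hK3', hK4'⟩ := hA2 K hK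
    have e : ∀ i, a' + j * d + W * t i = W * (K + t i) + b := by
      intro i
      have h1 : W * (K + t i) = W * K + W * t i := by ring
      omega
    refine ⟨?_, ?_, ?_⟩
    · intro i hi
      rw [e i]
      exact (hK3' i).2 hi
    · intro i
      refine ⟨?_, ?_, ?_⟩
      · rw [e i]
        have h1 : W * (K + t i) ≡ 0 [MOD q] := (Nat.modEq_zero_iff_dvd).2 (hqW.mul_right _)
        simpa using h1.add hbq
      · intro p hp hpd
        rw [e i] at hpd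
        by_contra hcon
        push Not at hcon
        exact hK2' p hp hcon i (hFid p hp _ (Int.natCast_dvd_natCast.2 hpd))
      · intro v hv p hp hpd
        rw [e i] at hpd
        by_contra hcon
        push Not at hcon
        exact hrough K hK p hp hcon i ((PV_dvd W U hp _).2 (Or.inr ⟨v, hv, hpd⟩))
    · intro y hy hyI
      by_cases hyE : y ∈ E'
      · have h1 := hK4' y hyE
        have e2 : a' + j * d + y = W * K + (b + y) := by omega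
        rw [e2]
        exact h1
      · rw [hE', mem_filter] at hyE
        push Not at hyE
        obtain ⟨i, hi⟩ := hyE (mem_range.2 (by omega))
        intro hpr
        rw [← hi, e i] at hpr
        exact hyI i ((hK3' i).1 hpr) hi

end Pool.Agent.U974.EX
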